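import Pool.Agent.Lib.MP_a1d272_co.Ctx

/-!
One batch: the soft local lemma data for embedding a set `W` of new vertices.
-/

namespace Pool.Agent.MPa1d272

open Finset

set_option linter.unusedSectionVars false

namespace Ctx

variable {V P : Type*} [Fintype V] [DecidableEq V] [Fintype P] [DecidableEq P] [Nonempty P]
variable (G : Ctx V P) (U W : Finset V) (φ : V → P)

/-- forbidden colours -/
def forb : Finset P := U.image φ ∪ (G.E.filter (· ⊆ U)).biUnion fun e => G.f (e.image φ)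

lemma forb_card : ((G.forb U φ).card : ℝ) ≤ 2 * G.k * G.mm := by
  have h1 : (G.forb U φ).card ≤ G.k * G.E.card + G.E.card * G.k := by
    unfold forb
    refine (card_union_le _ _).trans (add_le_add ?_ ?_)
    · exact card_image_le.trans ((card_le_univ _).trans G.card_V_le)
    · refine (card_biUnion_le_card_mul _ _ G.k fun e _ => G.hf _).trans ?_
      exact Nat.mul_le_mul_right _ (card_filter_le _ _)
  unfold mm
  calc ((G.forb U φ).card : ℝ) ≤ ((G.k * G.E.card + G.E.card * G.k : ℕ) : ℝ) := by exact_mod_cast h1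
    _ = _ := by push_cast; ring

/-- index type of terms of a soft constraint: edge, subset, vertex -/
abbrev Term (V : Type*) := (_ : Finset V) × (Finset V × V)

/-- index type of bad events -/
abbrev BadIdx (V : Type*) := V ⊕ ((V × V) ⊕ ((_ : Finset V) × V))

/-- data of the soft local lemma for the batch `W` -/
noncomputable def dat : Soft V P (BadIdx V) V (Term V) where
  I := W.disjSum (((W ×ˢ W).filter fun q => q.1 ≠ q.2).disjSum
    ((G.E.filter fun e => e ⊆ U ∪ W ∧ ¬ e ⊆ U).sigma fun e => (U ∪ W) \ e))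
  B := Sum.elim (fun y X => if X y ∈ G.forb U φ then 1 else 0)
    (Sum.elim (fun q X => if X q.1 = X q.2 then 1 else 0)
      (fun t X => cf G.f t.1 t.2 (U.piecewise φ X)))
  vb := Sum.elim (fun y => {y}) (Sum.elim (fun q => {q.1, q.2}) (fun t => insert t.2 t.1 \ U))
  Tm v := (G.E.filter (v ∈ ·)).sigma fun e => (e ∩ W).powerset ×ˢ ((U ∪ W) \ e)
  m _ t X := G.lam ((t.1 ∩ U).card + t.2.1.card) *
    mass G.f (insert t.2.2 (U ∪ t.2.1)) t.1 t.2.2 (U.piecewise φ X)
  tv _ t := insert t.2.2 t.2.1 \ U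

lemma Ex_m (v : V) (t : Term V) : Ex ((G.dat U W φ).m v t)
    = G.lam ((t.1 ∩ U).card + t.2.1.card) * mass G.f U t.1 t.2.2 φ := by
  have h1 : (G.dat U W φ).m v t = fun X => G.lam ((t.1 ∩ U).card + t.2.1.card) *
    mass G.f (insert t.2.2 (U ∪ t.2.1)) t.1 t.2.2 (U.piecewise φ X) := rfl
  rw [h1, Ex_mul_left, Ex_mass]
  exact subset_union_left.trans (subset_insert _ _)

/-- the sum over subsets of the weights -/
lemma sum_lam_le {e : Finset V} (he : e ∈ G.E) :
    ∑ R ∈ (e ∩ W).powerset, G.lam ((e ∩ U).card + R.card)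
      ≤ G.lam (e ∩ U).card * (1 + 2 ^ G.k / G.M) := by
  have h1 : ∀ R ∈ (e ∩ W).powerset, G.lam ((e ∩ U).card + R.card)
      ≤ (if R = ∅ then G.lam (e ∩ U).card else 0) + G.lam (e ∩ U).card / G.M := by
    intro R _
    have hp : 0 ≤ G.lam (e ∩ U).card / G.M := (div_pos (G.lam_pos _) G.M_pos).le
    split_ifs with hR
    · subst hR; simpa using hp
    · rw [zero_add]
      refine G.lam_succ_le ?_
      have : 1 ≤ R.card := card_pos.2 (nonempty_iff_ne_empty.2 hR)
      omega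
  refine (sum_le_sum h1).trans ?_
  rw [sum_add_distrib, sum_ite_eq', if_pos (empty_mem_powerset _), sum_const, card_powerset,
    nsmul_eq_mul]
  have h2 : ((2 ^ (e ∩ W).card : ℕ) : ℝ) ≤ 2 ^ G.k := by
    push_cast
    refine pow_le_pow_right₀ (by norm_num) ?_
    rw [← G.hE e he]
    exact card_le_card inter_subset_left
  have hp : 0 ≤ G.lam (e ∩ U).card / G.M := (div_pos (G.lam_pos _) G.M_pos).le
  have h3 := mul_le_mul_of_nonneg_right h2 hp
  calc _ ≤ G.lam (e ∩ U).card + 2 ^ G.k * (G.lam (e ∩ U).card / G.M) := by linarith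
    _ = _ := by ring

lemma sum_lam_le_L {e : Finset V} (he : e ∈ G.E) :
    ∑ R ∈ (e ∩ W).powerset, G.lam ((e ∩ U).card + R.card) ≤ 2 ^ G.k * G.L := by
  refine (sum_le_sum fun R _ => G.lam_le_L _).trans ?_
  rw [sum_const, card_powerset, nsmul_eq_mul]
  refine mul_le_mul_of_nonneg_right ?_ G.L_pos.le
  push_cast
  refine pow_le_pow_right₀ (by norm_num) ?_
  rw [← G.hE e he]
  exact card_le_card inter_subset_left

lemma sum_lam_ne_le {e : Finset V} (he : e ∈ G.E) (z : V) :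
    ∑ R ∈ (e ∩ W).powerset, (if z ∈ R then G.lam ((e ∩ U).card + R.card) else 0)
      ≤ if z ∈ e then 2 ^ G.k * (G.lam (e ∩ U).card / G.M) else 0 := by
  have hp : 0 ≤ G.lam (e ∩ U).card / G.M := (div_pos (G.lam_pos _) G.M_pos).le
  split_ifs with hz
  · have h1 : ∀ R ∈ (e ∩ W).powerset, (if z ∈ R then G.lam ((e ∩ U).card + R.card) else 0)
        ≤ G.lam (e ∩ U).card / G.M := by
      intro R _
      split_ifs with hR
      · refine G.lam_succ_le ?_
        have : 1 ≤ R.card := card_pos.2 ⟨z, hR⟩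
        omega
      · exact hp
    refine (sum_le_sum h1).trans ?_
    rw [sum_const, card_powerset, nsmul_eq_mul]
    refine mul_le_mul_of_nonneg_right ?_ hp
    push_cast
    refine pow_le_pow_right₀ (by norm_num) ?_
    rw [← G.hE e he]
    exact card_le_card inter_subset_left
  · refine le_of_eq (sum_eq_zero fun R hR => ?_)
    rw [if_neg]
    exact fun h1 => hz (mem_inter.1 (mem_powerset.1 hR h1)).1

/-- the conflict mass including the new vertices -/
lemma sum_mass_le (hUW : Disjoint U W) (e : Finset V) :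
    ∑ w ∈ (U ∪ W) \ e, mass G.f U e w φ ≤ G.h U φ e + W.card * (G.k / G.N) := by
  have h1 : (U ∪ W) \ e = (U \ e) ∪ (W \ e) := union_sdiff_distrib _ _ _
  have hd : Disjoint (U \ e) (W \ e) :=
    hUW.mono sdiff_subset sdiff_subset
  rw [h1, sum_union hd]
  refine add_le_add le_rfl ?_
  have hq : 0 ≤ (G.k : ℝ) / G.N := div_nonneg (Nat.cast_nonneg _) G.N_pos.le
  calc ∑ w ∈ W \ e, mass G.f U e w φ ≤ ∑ _w ∈ W \ e, (G.k : ℝ) / G.N := by
        refine sum_le_sum fun w hw => ?_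
        rw [mem_sdiff] at hw
        exact mass_le G.f G.hf (fun h => (disjoint_left.1 hUW h) hw.1) hw.2 φ
    _ = (W \ e).card * ((G.k : ℝ) / G.N) := by rw [sum_const, nsmul_eq_mul]
    _ ≤ _ := by
        refine mul_le_mul_of_nonneg_right ?_ hq
        exact_mod_cast card_le_card sdiff_subset

/-- hypotheses of a batch -/
structure BatchHyp : Prop where
  disj : Disjoint U W
  degW : ∀ v ∉ U, (G.deg v : ℝ) * W.card ≤ G.k * G.mm
  psi : ∀ v ∉ U, G.Ψ U φ v ≤ 1
  cold : ∀ v ∉ U ∪ W, G.Ψ U φ v ≤ 1 / 16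
  large : 32 * (G.k + 1) * (7 * G.k ^ 2 + G.M ^ (G.k - 1) * G.M1) * G.mm ≤ G.N

variable {G U W φ}

/-- numeric facts -/
lemma num1 : (2 : ℝ) ^ G.k / G.M = 1 / (64 * G.k * (G.k + 1)) := by
  have h1 := G.k1
  unfold M
  field_simp

lemma num2 : G.L * (G.k * G.mm) * (G.k / G.N) = G.k ^ 2 / G.M1 := by
  have h1 := G.N_pos
  have h2 := G.mm_pos
  have h3 := G.M1_pos
  unfold L
  field_simp

lemma num3 : (2 : ℝ) ^ G.k * (G.k ^ 2 / G.M1) = 1 / (1024 * (G.k + 1)) := by
  have h1 := G.k1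
  unfold M1
  field_simp

lemma small_sum (hb : G.BatchHyp U W φ) {v : V} (hv : v ∉ U ∪ W) :
    ∑ t ∈ (G.dat U W φ).Tm v, Ex ((G.dat U W φ).m v t) ≤ 1 / 8 := by
  have hvU : v ∉ U := fun h => hv (mem_union_left _ h)
  simp only [Ex_m]
  change ∑ t ∈ (G.E.filter (v ∈ ·)).sigma (fun e => (e ∩ W).powerset ×ˢ ((U ∪ W) \ e)), _ ≤ _
  rw [sum_sigma]
  have h1 : ∀ e ∈ G.E.filter (v ∈ ·), ∑ s ∈ (e ∩ W).powerset ×ˢ ((U ∪ W) \ e),
      G.lam ((e ∩ U).card + s.1.card) * mass G.f U e s.2 φ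
      ≤ (1 + 2 ^ G.k / G.M) * (G.lam (e ∩ U).card * G.h U φ e)
        + 2 ^ G.k * G.L * (W.card * (G.k / G.N)) := by
    intro e he
    have heE := (mem_filter.1 he).1
    rw [sum_product]
    simp only [← mul_sum]
    rw [← sum_mul]
    have h2 := G.sum_lam_le U W heE
    have h3 := G.sum_lam_le_L U W heE
    have h4 := G.sum_mass_le U W φ hb.disj e
    have h5 : 0 ≤ ∑ R ∈ (e ∩ W).powerset, G.lam ((e ∩ U).card + R.card) :=
      sum_nonneg fun R _ => (G.lam_pos _).le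
    have h6 : 0 ≤ (W.card : ℝ) * (G.k / G.N) :=
      mul_nonneg (Nat.cast_nonneg _) (div_nonneg (Nat.cast_nonneg _) G.N_pos.le)
    have h7 := G.h_nonneg U φ e
    calc _ ≤ (∑ R ∈ (e ∩ W).powerset, G.lam ((e ∩ U).card + R.card)) *
          (G.h U φ e + W.card * (G.k / G.N)) := mul_le_mul_of_nonneg_left h4 h5
      _ = (∑ R ∈ (e ∩ W).powerset, G.lam ((e ∩ U).card + R.card)) * G.h U φ e
          + (∑ R ∈ (e ∩ W).powerset, G.lam ((e ∩ U).card + R.card)) * (W.card * (G.k / G.N)) := by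
          ring
      _ ≤ G.lam (e ∩ U).card * (1 + 2 ^ G.k / G.M) * G.h U φ e
          + 2 ^ G.k * G.L * (W.card * (G.k / G.N)) :=
          add_le_add (mul_le_mul_of_nonneg_right h2 h7) (mul_le_mul_of_nonneg_right h3 h6)
      _ = _ := by ring
  refine (sum_le_sum h1).trans ?_
  rw [sum_add_distrib, ← mul_sum, sum_const, nsmul_eq_mul]
  change (1 + 2 ^ G.k / G.M) * G.Ψ U φ v + (G.deg v : ℝ) * _ ≤ _
  have h2 := hb.cold v hv
  have h3 := hb.degW v hvU
  have h4 : (0 : ℝ) ≤ 2 ^ G.k * G.L * (G.k / G.N) := by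
    have := G.L_pos
    have := G.N_pos
    positivity
  have h5 : (G.deg v : ℝ) * (2 ^ G.k * G.L * (W.card * (G.k / G.N)))
      ≤ 2 ^ G.k * (G.k ^ 2 / G.M1) := by
    calc _ = (G.deg v * W.card : ℝ) * (2 ^ G.k * G.L * (G.k / G.N)) := by ring
      _ ≤ (G.k * G.mm) * (2 ^ G.k * G.L * (G.k / G.N)) := mul_le_mul_of_nonneg_right h3 h4
      _ = 2 ^ G.k * (G.L * (G.k * G.mm) * (G.k / G.N)) := by ring
      _ = _ := by rw [num2]
  rw [num3] at h5
  rw [num1]
  have hk := G.k1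
  have h6 : 1 / (64 * (G.k : ℝ) * (G.k + 1)) ≤ 1 / 64 := by
    refine one_div_le_one_div_of_le (by norm_num) ?_
    nlinarith
  have h7 : 1 / (1024 * ((G.k : ℝ) + 1)) ≤ 1 / 1024 := by
    refine one_div_le_one_div_of_le (by norm_num) ?_
    nlinarith
  have h8 := G.Ψ_nonneg U φ v
  have h9 : (1 + 1 / (64 * (G.k : ℝ) * (G.k + 1))) * G.Ψ U φ v ≤ (1 + 1 / 64) * (1 / 16) :=
    mul_le_mul (by linarith) h2 h8 (by norm_num)
  linarith

end Ctx

end Pool.Agent.MPa1d272
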