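import Pool.Agent.Lib.MP_a1d272_co.Mass

/-!
Standing data, potentials, and counting lemmas.
-/

namespace Pool.Agent.MPa1d272

open Finset

set_option linter.unusedSectionVars false

/-- standing data: a `k`-graph without isolated vertices and a map on finite sets of colours -/
structure Ctx (V P : Type*) where
  k : ℕ
  E : Finset (Finset V)
  f : Finset P → Finset P
  hk : 1 ≤ k
  hE : ∀ e ∈ E, e.card = k
  iso : ∀ v, ∃ e ∈ E, v ∈ e
  hf : ∀ s, (f s).card ≤ k
  hm : E.Nonempty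

namespace Ctx

variable {V P : Type*} [Fintype V] [DecidableEq V] [Fintype P] [DecidableEq P] [Nonempty P]
variable (G : Ctx V P)

/-- decay factor -/
noncomputable def M : ℝ := 64 * G.k * (G.k + 1) * 2 ^ G.k
/-- normalisation -/
noncomputable def M1 : ℝ := 1024 * G.k ^ 2 * (G.k + 1) * 2 ^ G.k
/-- number of colours -/
noncomputable def N (_ : Ctx V P) : ℝ := (Fintype.card P : ℝ)
/-- number of edges -/
noncomputable def mm : ℝ := (G.E.card : ℝ)
/-- top weight -/
noncomputable def L : ℝ := G.N / (G.M1 * G.mm)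
/-- weight of an edge with `s` embedded vertices -/
noncomputable def lam (s : ℕ) : ℝ := G.L / G.M ^ s

lemma k1 : (1 : ℝ) ≤ G.k := by exact_mod_cast G.hk

lemma two_pow_ge : (2 : ℝ) ≤ 2 ^ G.k := by
  calc (2 : ℝ) = 2 ^ 1 := by norm_num
    _ ≤ 2 ^ G.k := pow_le_pow_right₀ (by norm_num) G.hk

lemma M_ge : (256 : ℝ) ≤ G.M := by
  unfold M
  have h1 := G.k1
  have h2 := G.two_pow_ge
  have h3 : (2 : ℝ) ≤ G.k * (G.k + 1) := by nlinarith
  calc (256 : ℝ) = 64 * 2 * 2 := by norm_num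
    _ ≤ 64 * (G.k * (G.k + 1)) * 2 ^ G.k := by
        refine mul_le_mul ?_ h2 (by norm_num) (by positivity)
        linarith
    _ = _ := by ring

lemma M_pos : 0 < G.M := by linarith [G.M_ge]

lemma M1_pos : 0 < G.M1 := by
  unfold M1
  have h1 := G.k1
  positivity

lemma mm_pos : 0 < G.mm := by
  unfold mm
  exact_mod_cast card_pos.2 G.hm

lemma mm_ge : 1 ≤ G.mm := by
  unfold mm
  exact_mod_cast card_pos.2 G.hm

lemma N_pos : 0 < G.N := by
  unfold N
  exact_mod_cast Fintype.card_pos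

lemma L_pos : 0 < G.L := div_pos G.N_pos (mul_pos G.M1_pos G.mm_pos)

lemma lam_pos (s : ℕ) : 0 < G.lam s := div_pos G.L_pos (pow_pos G.M_pos s)

lemma lam_le_L (s : ℕ) : G.lam s ≤ G.L := by
  unfold lam
  exact div_le_self G.L_pos.le (one_le_pow₀ (by linarith [G.M_ge]))

lemma lam_anti {s t : ℕ} (h : s ≤ t) : G.lam t ≤ G.lam s := by
  unfold lam
  exact div_le_div_of_nonneg_left G.L_pos.le (pow_pos G.M_pos s)
    (pow_le_pow_right₀ (by linarith [G.M_ge]) h)

lemma lam_succ_le {s t : ℕ} (h : s + 1 ≤ t) : G.lam t ≤ G.lam s / G.M := by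
  refine (G.lam_anti h).trans (le_of_eq ?_)
  unfold lam
  rw [pow_succ, div_div]

/-- conflict mass of an edge against the embedded vertices -/
noncomputable def h (U : Finset V) (φ : V → P) (e : Finset V) : ℝ :=
  ∑ w ∈ U \ e, mass G.f U e w φ

/-- load of a vertex -/
noncomputable def Ψ (U : Finset V) (φ : V → P) (v : V) : ℝ :=
  ∑ e ∈ G.E with v ∈ e, G.lam (e ∩ U).card * G.h U φ e

/-- total load -/
noncomputable def Tot (U : Finset V) (φ : V → P) : ℝ :=
  ∑ e ∈ G.E with ¬ e ⊆ U, G.lam (e ∩ U).card * G.h U φ e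

/-- degree of a vertex -/
def deg (v : V) : ℕ := (G.E.filter (v ∈ ·)).card

lemma h_nonneg (U : Finset V) (φ : V → P) (e : Finset V) : 0 ≤ G.h U φ e :=
  sum_nonneg fun _ _ => mass_nonneg _ _ _ _ _

lemma lh_nonneg (U : Finset V) (φ : V → P) (e : Finset V) :
    0 ≤ G.lam (e ∩ U).card * G.h U φ e :=
  mul_nonneg (G.lam_pos _).le (G.h_nonneg _ _ _)

lemma Ψ_nonneg (U : Finset V) (φ : V → P) (v : V) : 0 ≤ G.Ψ U φ v :=
  sum_nonneg fun _ _ => G.lh_nonneg _ _ _

lemma sum_deg : ∑ v, G.deg v = G.k * G.E.card := by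
  have h1 : ∀ v, G.deg v = ∑ e ∈ G.E, if v ∈ e then 1 else 0 := by
    intro v
    unfold deg
    rw [card_filter]
  simp only [h1]
  rw [sum_comm]
  have h2 : ∀ e ∈ G.E, ∑ v : V, (if v ∈ e then 1 else 0) = G.k := by
    intro e he
    rw [← card_filter]
    rw [← G.hE e he]
    congr 1
    ext v; simp
  rw [sum_congr rfl h2]
  simp [mul_comm]

lemma deg_pos (v : V) : 1 ≤ G.deg v := by
  obtain ⟨e, he, hv⟩ := G.iso v
  exact card_pos.2 ⟨e, mem_filter.2 ⟨he, hv⟩⟩

lemma card_V_le : Fintype.card V ≤ G.k * G.E.card := by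
  rw [← G.sum_deg]
  calc Fintype.card V = ∑ _v : V, 1 := by simp
    _ ≤ _ := sum_le_sum fun v _ => G.deg_pos v

lemma reg_bound {Reg : Finset V} {v : V} (hv : v ∉ Reg) (h : ∀ x ∈ Reg, G.deg v ≤ G.deg x) :
    (Reg.card + 1) * G.deg v ≤ G.k * G.E.card := by
  rw [← G.sum_deg]
  calc (Reg.card + 1) * G.deg v = ∑ _x ∈ insert v Reg, G.deg v := by
        rw [sum_const, card_insert_of_notMem hv, smul_eq_mul]
    _ ≤ ∑ x ∈ insert v Reg, G.deg x := by
        refine sum_le_sum fun x hx => ?_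
        rcases mem_insert.1 hx with rfl | hx
        · exact le_rfl
        · exact h x hx
    _ ≤ _ := sum_le_sum_of_subset (subset_univ _)

lemma sumPsi (U : Finset V) (φ : V → P) (Z : Finset V) :
    ∑ z ∈ Z, G.Ψ U φ z ≤
      G.k * ∑ e ∈ G.E with ¬ Disjoint e Z, G.lam (e ∩ U).card * G.h U φ e := by
  unfold Ψ
  simp only [sum_filter]
  rw [sum_comm, mul_sum]
  refine sum_le_sum fun e he => ?_
  have h1 : ∑ z ∈ Z, (if z ∈ e then G.lam (e ∩ U).card * G.h U φ e else 0)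
      = ((e ∩ Z).card : ℝ) * (G.lam (e ∩ U).card * G.h U φ e) := by
    rw [← sum_filter, sum_const, nsmul_eq_mul]
    congr 2
    congr 1
    ext z; simp [and_comm]
  rw [h1]
  have h2 := G.lh_nonneg U φ e
  by_cases hd : Disjoint e Z
  · rw [disjoint_iff_inter_eq_empty.1 hd]
    simp [hd]
  · rw [if_pos hd]
    refine mul_le_mul_of_nonneg_right ?_ h2
    have : (e ∩ Z).card ≤ G.k := by
      rw [← G.hE e he]; exact card_le_card inter_subset_left
    exact_mod_cast this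

/-- The state of the embedding. -/
structure Inv (U : Finset V) (φ : V → P) (r : ℕ) : Prop where
  inj : ∀ x ∈ U, ∀ y ∈ U, φ x = φ y → x = y
  free : ∀ e ∈ G.E, e ⊆ U → ∀ w ∈ U, w ∉ e → φ w ∉ G.f (e.image φ)
  psi : ∀ v ∉ U, G.Ψ U φ v ≤ 1
  reg : ∃ Reg ⊆ U, Reg.card = r ∧ ∀ x ∈ Reg, ∀ v ∉ U, G.deg v ≤ G.deg x
  tot : G.Tot U φ ≤ 2 * G.k / G.M1 * r

lemma inv_empty (φ : V → P) : G.Inv ∅ φ 0 := by
  have h0 : ∀ e, G.h ∅ φ e = 0 := fun e => by simp [h]
  refine ⟨by simp, ?_, ?_, ⟨∅, by simp, by simp, by simp⟩, ?_⟩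
  · intro e _ _ w hw
    exact absurd hw (notMem_empty w)
  · intro v _
    simp [Ψ, h0]
  · simp [Tot, h0]

end Ctx

end Pool.Agent.MPa1d272
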