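import Mathlib

/-!
Averages over all maps `V → P` (uniform independent choices), piecewise swaps, independence.
-/

namespace Pool.Agent.MPa1d272

open Finset

set_option linter.unusedSectionVars false

variable {V P : Type*} [Fintype V] [DecidableEq V] [Fintype P] [Nonempty P]

/-- Average of `F` over all maps `V → P`. -/
noncomputable def Ex (F : (V → P) → ℝ) : ℝ := (∑ X, F X) / (Fintype.card (V → P) : ℝ)

omit [DecidableEq V] in
lemma card_pos' [DecidableEq V] : (0 : ℝ) < (Fintype.card (V → P) : ℝ) := by
  exact_mod_cast Fintype.card_pos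

lemma Ex_const (c : ℝ) : Ex (fun _ : V → P => c) = c := by
  unfold Ex
  have := card_pos' (V := V) (P := P)
  simp only [Finset.sum_const, Finset.card_univ, nsmul_eq_mul]
  field_simp

lemma Ex_nonneg {F : (V → P) → ℝ} (h : ∀ X, 0 ≤ F X) : 0 ≤ Ex F := by
  unfold Ex
  exact div_nonneg (Finset.sum_nonneg fun X _ => h X) card_pos'.le

lemma Ex_mono {F G : (V → P) → ℝ} (h : ∀ X, F X ≤ G X) : Ex F ≤ Ex G := by
  unfold Ex
  exact div_le_div_of_nonneg_right (Finset.sum_le_sum fun X _ => h X) card_pos'.le

lemma Ex_add (F G : (V → P) → ℝ) : Ex (fun X => F X + G X) = Ex F + Ex G := by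
  unfold Ex
  rw [Finset.sum_add_distrib, add_div]

lemma Ex_sub (F G : (V → P) → ℝ) : Ex (fun X => F X - G X) = Ex F - Ex G := by
  unfold Ex
  rw [Finset.sum_sub_distrib, sub_div]

lemma Ex_mul_left (c : ℝ) (F : (V → P) → ℝ) : Ex (fun X => c * F X) = c * Ex F := by
  unfold Ex
  rw [← Finset.mul_sum, mul_div_assoc]

lemma Ex_sum {α : Type*} (s : Finset α) (F : α → (V → P) → ℝ) :
    Ex (fun X => ∑ a ∈ s, F a X) = ∑ a ∈ s, Ex (F a) := by
  unfold Ex
  rw [Finset.sum_comm, Finset.sum_div]

/-- a nonnegative function with positive average is positive somewhere, together with a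
first-moment bound for a second function. -/
lemma exists_le_of_Ex {wt T : (V → P) → ℝ} (hwt : ∀ X, 0 ≤ wt X) (hpos : 0 < Ex wt) (τ : ℝ)
    (h : Ex (fun X => T X * wt X) ≤ τ * Ex wt) : ∃ X, 0 < wt X ∧ T X ≤ τ := by
  by_contra hcon
  push Not at hcon
  have hc := card_pos' (V := V) (P := P)
  have h1 : Ex (fun X => τ * wt X) < Ex (fun X => T X * wt X) := by
    unfold Ex
    refine div_lt_div_of_pos_right ?_ hc
    obtain ⟨X0, hX0⟩ : ∃ X, 0 < wt X := by
      by_contra hno
      push Not at hno
      have : Ex wt ≤ Ex (fun _ : V → P => (0 : ℝ)) := Ex_mono hno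
      rw [Ex_const] at this
      linarith
    refine Finset.sum_lt_sum (fun X _ => ?_) ⟨X0, Finset.mem_univ _, ?_⟩
    · rcases (hwt X).lt_or_eq with hx | hx
      · exact mul_le_mul_of_nonneg_right (hcon X hx).le hx.le
      · rw [← hx]; simp
    · exact mul_lt_mul_of_pos_right (hcon X0 hX0) hX0
  rw [Ex_mul_left] at h1
  linarith

/-- The swap involution on pairs of maps. -/
def swapPair (D : Finset V) (q : (V → P) × (V → P)) : (V → P) × (V → P) :=
  (D.piecewise q.1 q.2, D.piecewise q.2 q.1)

omit [Fintype V] [Fintype P] [Nonempty P] in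
lemma swapPair_invol (D : Finset V) : Function.Involutive (swapPair (V := V) (P := P) D) := by
  intro q
  unfold swapPair
  ext v
  · simp only [Finset.piecewise]
    split_ifs <;> rfl
  · simp only [Finset.piecewise]
    split_ifs <;> rfl

lemma sum_swapPair (D : Finset V) (H : (V → P) × (V → P) → ℝ) :
    ∑ q, H (swapPair D q) = ∑ q, H q :=
  Equiv.sum_comp (Function.Involutive.toPerm _ (swapPair_invol D)) H

lemma Ex_Ex_piecewise (D : Finset V) (H : (V → P) → ℝ) :
    Ex (fun X => Ex (fun g => H (D.piecewise X g))) = Ex H := by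
  have hc := card_pos' (V := V) (P := P)
  have h1 : ∑ X : V → P, ∑ g : V → P, H (D.piecewise X g)
      = (Fintype.card (V → P) : ℝ) * ∑ X : V → P, H X := by
    have := sum_swapPair D (fun q : (V → P) × (V → P) => H q.1)
    rw [Fintype.sum_prod_type, Fintype.sum_prod_type] at this
    simp only [swapPair] at this
    rw [this, Finset.sum_comm]
    simp
  unfold Ex
  rw [← Finset.sum_div, h1]
  field_simp

/-- `F` depends only on the coordinates in `A`. -/
def DepOn (A : Finset V) (F : (V → P) → ℝ) : Prop :=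
  ∀ X Y : V → P, (∀ v ∈ A, X v = Y v) → F X = F Y

omit [Fintype V] [DecidableEq V] [Fintype P] [Nonempty P] in
lemma DepOn.mono {A B : Finset V} (h : A ⊆ B) {F : (V → P) → ℝ} (hF : DepOn A F) : DepOn B F :=
  fun X Y hXY => hF X Y fun v hv => hXY v (h hv)

lemma Ex_mul_of_disjoint {A B : Finset V} (hAB : Disjoint A B) {F G : (V → P) → ℝ}
    (hF : DepOn A F) (hG : DepOn B G) :
    Ex (fun X => F X * G X) = Ex F * Ex G := by
  have hc := card_pos' (V := V) (P := P)
  have h1 : (∑ X : V → P, F X) * (∑ X : V → P, G X)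
      = (Fintype.card (V → P) : ℝ) * ∑ X : V → P, F X * G X := by
    have := sum_swapPair A (fun q : (V → P) × (V → P) => F q.1 * G q.2)
    rw [Fintype.sum_prod_type, Fintype.sum_prod_type] at this
    simp only [swapPair] at this
    rw [Finset.sum_mul_sum, ← this]
    have h2 : ∀ X g : V → P, F (A.piecewise X g) * G (A.piecewise g X) = F X * G X := by
      intro X g
      rw [hF (A.piecewise X g) X (fun v hv => by simp [Finset.piecewise, hv]),
        hG (A.piecewise g X) X (fun v hv => by
          have : v ∉ A := fun hvA => (Finset.disjoint_left.1 hAB hvA) hv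
          simp [Finset.piecewise, this])]
    simp only [h2]
    simp [Finset.mul_sum]
  unfold Ex
  rw [div_mul_div_comm, h1]
  field_simp

/-- resampling one coordinate -/
lemma Ex_update (w : V) (H : (V → P) → ℝ) :
    Ex H = Ex (fun g => (∑ p : P, H (Function.update g w p)) / (Fintype.card P : ℝ)) := by
  have hc := card_pos' (V := V) (P := P)
  have hP : (0 : ℝ) < (Fintype.card P : ℝ) := by exact_mod_cast Fintype.card_pos
  let σ : (V → P) × P → (V → P) × P := fun q => (Function.update q.1 w q.2, q.1 w)
  have hσ : Function.Involutive σ := by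
    intro q
    simp [σ]
  have h1 : ∑ q : (V → P) × P, H (σ q).1 = ∑ q : (V → P) × P, H q.1 :=
    Equiv.sum_comp (Function.Involutive.toPerm _ hσ) (fun q => H q.1)
  rw [Fintype.sum_prod_type, Fintype.sum_prod_type] at h1
  simp only [σ, Finset.sum_const, Finset.card_univ, nsmul_eq_mul] at h1
  unfold Ex
  rw [← Finset.sum_div, h1, ← Finset.mul_sum]
  field_simp

lemma Ex_mem_le [DecidableEq P] (w : V) (A : (V → P) → Finset P)
    (hA : ∀ g p, A (Function.update g w p) = A g) (a : ℝ) (hcard : ∀ g, ((A g).card : ℝ) ≤ a) :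
    Ex (fun g => if g w ∈ A g then (1 : ℝ) else 0) ≤ a / (Fintype.card P : ℝ) := by
  have hP : (0 : ℝ) < (Fintype.card P : ℝ) := by exact_mod_cast Fintype.card_pos
  rw [Ex_update w]
  calc _ ≤ Ex (fun _ : V → P => a / (Fintype.card P : ℝ)) := by
        refine Ex_mono fun g => ?_
        refine div_le_div_of_nonneg_right ?_ hP.le
        simp only [Function.update_self, hA]
        rw [Finset.sum_ite_mem]
        simpa using hcard g
    _ = _ := Ex_const _

end Pool.Agent.MPa1d272
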