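import Pool.Agent.Lib.MP_a1d272_co.Batch

/-!
The local condition of the soft local lemma for a batch.
-/

namespace Pool.Agent.MPa1d272

open Finset

set_option linter.unusedSectionVars false

namespace Ctx

variable {V P : Type*} [Fintype V] [DecidableEq V] [Fintype P] [DecidableEq P] [Nonempty P]
variable {G : Ctx V P} {U W : Finset V} {φ : V → P}

lemma sum_inc (S : Finset V) (g : Finset V → ℝ) (hg : ∀ e ∈ G.E, 0 ≤ g e) :
    ∑ v ∈ S, ∑ e ∈ G.E with v ∈ e, g e ≤ G.k * ∑ e ∈ G.E, g e := by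
  simp only [sum_filter]
  rw [sum_comm, mul_sum]
  refine sum_le_sum fun e he => ?_
  rw [← sum_filter, sum_const, nsmul_eq_mul]
  refine mul_le_mul_of_nonneg_right ?_ (hg e he)
  have : (S.filter (· ∈ e)).card ≤ G.k := by
    rw [← G.hE e he]
    refine card_le_card fun v hv => (mem_filter.1 hv).2
  exact_mod_cast this

lemma kN_nonneg : 0 ≤ (G.k : ℝ) / G.N := div_nonneg (Nat.cast_nonneg _) G.N_pos.le

lemma flip_edge (hb : G.BatchHyp U W φ) {z : V} (hz : z ∈ W) {e : Finset V} (he : e ∈ G.E) :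
    ∑ s ∈ (e ∩ W).powerset ×ˢ ((U ∪ W) \ e),
      (if z ∈ insert s.2 s.1 \ U then G.lam ((e ∩ U).card + s.1.card) * mass G.f U e s.2 φ else 0)
    ≤ (if z ∈ e then 2 ^ G.k / G.M * (G.lam (e ∩ U).card * G.h U φ e)
        + 2 ^ G.k / G.M * (G.L * W.card * (G.k / G.N)) else 0) + 2 ^ G.k * G.L * (G.k / G.N) := by
  have hzU : z ∉ U := fun h => (disjoint_left.1 hb.disj h) hz
  have hM := G.M_pos
  rw [sum_product]
  have h1 : ∀ R ∈ (e ∩ W).powerset, ∑ w ∈ (U ∪ W) \ e,
      (if z ∈ insert w R \ U then G.lam ((e ∩ U).card + R.card) * mass G.f U e w φ else 0)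
      ≤ (if z ∈ R then G.lam ((e ∩ U).card + R.card) else 0)
          * (G.h U φ e + W.card * (G.k / G.N))
        + G.lam ((e ∩ U).card + R.card) * (G.k / G.N) := by
    intro R _
    have h2 : ∀ w ∈ (U ∪ W) \ e,
        (if z ∈ insert w R \ U then G.lam ((e ∩ U).card + R.card) * mass G.f U e w φ else 0)
        ≤ (if z ∈ R then G.lam ((e ∩ U).card + R.card) else 0) * mass G.f U e w φ
          + (if z = w then G.lam ((e ∩ U).card + R.card) * mass G.f U e w φ else 0) := by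
      intro w _
      have h3 : 0 ≤ G.lam ((e ∩ U).card + R.card) * mass G.f U e w φ :=
        mul_nonneg (G.lam_pos _).le (mass_nonneg _ _ _ _ _)
      by_cases hzR : z ∈ R
      · rw [if_pos hzR]
        by_cases hzw : z = w
        · rw [if_pos hzw]; split_ifs <;> linarith
        · rw [if_neg hzw]; split_ifs <;> linarith
      · rw [if_neg hzR, zero_mul, zero_add]
        by_cases hzw : z = w
        · rw [if_pos hzw]; split_ifs <;> linarith
        · rw [if_neg hzw, if_neg]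
          simp [hzw, hzR]
    refine (sum_le_sum h2).trans ?_
    rw [sum_add_distrib, ← mul_sum]
    have h4 : 0 ≤ (if z ∈ R then G.lam ((e ∩ U).card + R.card) else 0) := by
      split_ifs
      · exact (G.lam_pos _).le
      · exact le_rfl
    refine add_le_add (mul_le_mul_of_nonneg_left (G.sum_mass_le U W φ hb.disj e) h4) ?_
    rw [sum_ite_eq]
    split_ifs with h5
    · rw [mem_sdiff] at h5
      exact mul_le_mul_of_nonneg_left (mass_le G.f G.hf hzU h5.2 φ) (G.lam_pos _).le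
    · exact mul_nonneg (G.lam_pos _).le kN_nonneg
  refine (sum_le_sum h1).trans ?_
  rw [sum_add_distrib, ← sum_mul, ← sum_mul]
  have hkN : 0 ≤ (G.k : ℝ) / G.N := kN_nonneg
  have hh : 0 ≤ G.h U φ e + W.card * (G.k / G.N) :=
    add_nonneg (G.h_nonneg _ _ _) (mul_nonneg (Nat.cast_nonneg _) hkN)
  refine add_le_add ?_ (mul_le_mul_of_nonneg_right (G.sum_lam_le_L U W he) hkN)
  refine (mul_le_mul_of_nonneg_right (G.sum_lam_ne_le U W he z) hh).trans ?_
  split_ifs with hze
  · have h5 : 2 ^ G.k * (G.lam (e ∩ U).card / G.M) * (W.card * (G.k / G.N))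
        ≤ 2 ^ G.k / G.M * (G.L * W.card * (G.k / G.N)) := by
      have h6 := G.lam_le_L (e ∩ U).card
      have h7 : 0 ≤ 2 ^ G.k / G.M * (W.card * (G.k / G.N)) := by positivity
      calc _ = G.lam (e ∩ U).card * (2 ^ G.k / G.M * (W.card * (G.k / G.N))) := by ring
        _ ≤ G.L * (2 ^ G.k / G.M * (W.card * (G.k / G.N))) := mul_le_mul_of_nonneg_right h6 h7
        _ = _ := by ring
    calc _ = 2 ^ G.k / G.M * (G.lam (e ∩ U).card * G.h U φ e)
        + 2 ^ G.k * (G.lam (e ∩ U).card / G.M) * (W.card * (G.k / G.N)) := by ring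
      _ ≤ _ := by linarith
  · rw [zero_mul]

/-- bound for the soft part at `z` -/
lemma flips (hb : G.BatchHyp U W φ) {z : V} (hz : z ∈ W) :
    ∑ v ∈ (U ∪ W)ᶜ, ∑ t ∈ (G.dat U W φ).Tm v,
      (if z ∈ (G.dat U W φ).tv v t then Ex ((G.dat U W φ).m v t) else 0)
    ≤ 3 / (64 * (G.k + 1)) := by
  have hzU : z ∉ U := fun h => (disjoint_left.1 hb.disj h) hz
  have hk := G.k1
  have hM := G.M_pos
  simp only [Ex_m]
  change ∑ v ∈ (U ∪ W)ᶜ, ∑ t ∈ (G.E.filter (v ∈ ·)).sigma
    (fun e => (e ∩ W).powerset ×ˢ ((U ∪ W) \ e)),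
      (if z ∈ insert t.2.2 t.2.1 \ U then
        G.lam ((t.1 ∩ U).card + t.2.1.card) * mass G.f U t.1 t.2.2 φ else 0) ≤ _
  simp only [sum_sigma]
  set g : Finset V → ℝ := fun e => ∑ s ∈ (e ∩ W).powerset ×ˢ ((U ∪ W) \ e),
      (if z ∈ insert s.2 s.1 \ U then G.lam ((e ∩ U).card + s.1.card) * mass G.f U e s.2 φ else 0)
    with hg
  have hg0 : ∀ e ∈ G.E, 0 ≤ g e := by
    intro e _
    refine sum_nonneg fun s _ => ?_
    split_ifs
    · exact mul_nonneg (G.lam_pos _).le (mass_nonneg _ _ _ _ _)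
    · exact le_rfl
  refine (sum_inc (G := G) (U ∪ W)ᶜ g hg0).trans ?_
  have h1 : ∑ e ∈ G.E, g e ≤ 2 ^ G.k / G.M * G.Ψ U φ z
      + (G.deg z : ℝ) * (2 ^ G.k / G.M * (G.L * W.card * (G.k / G.N)))
      + G.mm * (2 ^ G.k * G.L * (G.k / G.N)) := by
    refine (sum_le_sum fun e he => flip_edge hb hz he).trans (le_of_eq ?_)
    rw [sum_add_distrib, ← sum_filter, sum_add_distrib, ← mul_sum, sum_const, sum_const,
      nsmul_eq_mul, nsmul_eq_mul]
    rfl
  have h2 := hb.psi z hzU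
  have h3 := hb.degW z hzU
  have hL := G.L_pos
  have hN := G.N_pos
  have h4 : (G.deg z : ℝ) * (2 ^ G.k / G.M * (G.L * W.card * (G.k / G.N)))
      ≤ 2 ^ G.k / G.M * (G.k ^ 2 / G.M1) := by
    have h5 : (0 : ℝ) ≤ 2 ^ G.k / G.M * G.L * (G.k / G.N) := by positivity
    calc _ = (G.deg z * W.card : ℝ) * (2 ^ G.k / G.M * G.L * (G.k / G.N)) := by ring
      _ ≤ (G.k * G.mm) * (2 ^ G.k / G.M * G.L * (G.k / G.N)) := mul_le_mul_of_nonneg_right h3 h5
      _ = 2 ^ G.k / G.M * (G.L * (G.k * G.mm) * (G.k / G.N)) := by ring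
      _ = _ := by rw [num2]
  have h6 : G.k * (G.mm * (2 ^ G.k * G.L * (G.k / G.N))) = 1 / (1024 * ((G.k : ℝ) + 1)) := by
    rw [← num3, ← num2]; ring
  have h7 : (2 : ℝ) ^ G.k / G.M * G.Ψ U φ z ≤ 2 ^ G.k / G.M := by
    have : (0 : ℝ) ≤ 2 ^ G.k / G.M := by positivity
    nlinarith
  have h8 : (G.k : ℝ) ^ 2 / G.M1 ≤ 1 := by
    rw [div_le_one G.M1_pos]
    unfold M1
    have h9 := G.two_pow_ge
    have h10 : (1 : ℝ) ≤ (G.k + 1) * 2 ^ G.k := by nlinarith
    have h11 : (0 : ℝ) ≤ (G.k : ℝ) ^ 2 := by positivity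
    nlinarith
  have h12 : (2 : ℝ) ^ G.k / G.M * (G.k ^ 2 / G.M1) ≤ 2 ^ G.k / G.M := by
    have : (0 : ℝ) ≤ 2 ^ G.k / G.M := by positivity
    nlinarith
  have h13 : G.k * ((2 : ℝ) ^ G.k / G.M) = 1 / (64 * (G.k + 1)) := by
    rw [num1]; field_simp
  calc G.k * ∑ e ∈ G.E, g e ≤ G.k * (2 ^ G.k / G.M + 2 ^ G.k / G.M
        + G.mm * (2 ^ G.k * G.L * (G.k / G.N))) := by
        refine mul_le_mul_of_nonneg_left ?_ (by linarith)
        linarith
    _ = 2 * (G.k * ((2 : ℝ) ^ G.k / G.M)) + G.k * (G.mm * (2 ^ G.k * G.L * (G.k / G.N))) := by ring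
    _ = 2 * (1 / (64 * (G.k + 1))) + 1 / (1024 * ((G.k : ℝ) + 1)) := by rw [h13, h6]
    _ ≤ 3 / (64 * (G.k + 1)) := by
        have : (0 : ℝ) < G.k + 1 := by linarith
        rw [show (2 : ℝ) * (1 / (64 * (G.k + 1))) = 2 / 64 * (1 / (G.k + 1)) by field_simp,
          show (1 : ℝ) / (1024 * (G.k + 1)) = 1 / 1024 * (1 / (G.k + 1)) by field_simp,
          show (3 : ℝ) / (64 * (G.k + 1)) = 3 / 64 * (1 / (G.k + 1)) by field_simp]
        have h14 : (0 : ℝ) < 1 / (G.k + 1) := by positivity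
        nlinarith

lemma Ex_eq_le {y y' : V} (h : y ≠ y') :
    Ex (fun X : V → P => if X y = X y' then (1 : ℝ) else 0) ≤ 1 / G.N := by
  have h1 := Ex_mem_le (V := V) (P := P) y (fun g => {g y'}) (fun g p => by
    simp [Function.update_of_ne h.symm]) 1 (fun g => by simp)
  rw [show G.N = (Fintype.card P : ℝ) from rfl]
  simpa [mem_singleton] using h1

/-- bound for the bad events at `z` -/
lemma bads (hb : G.BatchHyp U W φ) {z : V} (hz : z ∈ W) :
    ∑ i ∈ (G.dat U W φ).I, (if z ∈ (G.dat U W φ).vb i then Ex ((G.dat U W φ).B i) else 0)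
    ≤ (7 * G.k ^ 2 + G.M ^ (G.k - 1) * G.M1) * G.mm / G.N := by
  have hzU : z ∉ U := fun h => (disjoint_left.1 hb.disj h) hz
  have hk := G.k1
  have hM := G.M_pos
  have hN := G.N_pos
  have hkN : 0 ≤ (G.k : ℝ) / G.N := kN_nonneg
  have hWV : (W.card : ℝ) ≤ G.k * G.mm := by
    have h1 : W.card ≤ G.k * G.E.card := (card_le_univ _).trans G.card_V_le
    unfold mm
    exact_mod_cast h1
  change ∑ i ∈ W.disjSum (((W ×ˢ W).filter fun q => q.1 ≠ q.2).disjSum
    ((G.E.filter fun e => e ⊆ U ∪ W ∧ ¬ e ⊆ U).sigma fun e => (U ∪ W) \ e)), _ ≤ _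
  rw [sum_disjSum, sum_disjSum, sum_sigma]
  -- first kind
  have A1 : ∑ y ∈ W, (if z ∈ (G.dat U W φ).vb (Sum.inl y)
      then Ex ((G.dat U W φ).B (Sum.inl y)) else 0) ≤ 2 * G.k * G.mm / G.N := by
    have h1 : ∀ y ∈ W, (if z ∈ (G.dat U W φ).vb (Sum.inl y)
      then Ex ((G.dat U W φ).B (Sum.inl y)) else 0) ≤ if z = y then 2 * G.k * G.mm / G.N else 0 := by
      intro y _
      change (if z ∈ ({y} : Finset V) then
        Ex (fun X : V → P => if X y ∈ G.forb U φ then (1 : ℝ) else 0) else 0) ≤ _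
      simp only [mem_singleton]
      split_ifs
      · exact Ex_mem_le y (fun _ => G.forb U φ) (fun _ _ => rfl) _ (fun _ => G.forb_card U φ)
      · exact le_rfl
    refine (sum_le_sum h1).trans ?_
    rw [sum_ite_eq, if_pos hz]
  -- second kind
  have A2 : ∑ q ∈ (W ×ˢ W).filter (fun q => q.1 ≠ q.2),
      (if z ∈ (G.dat U W φ).vb (Sum.inr (Sum.inl q))
      then Ex ((G.dat U W φ).B (Sum.inr (Sum.inl q))) else 0) ≤ 2 * G.k * G.mm / G.N := by
    have h1 : ∀ q ∈ (W ×ˢ W).filter (fun q => q.1 ≠ q.2),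
      (if z ∈ (G.dat U W φ).vb (Sum.inr (Sum.inl q))
      then Ex ((G.dat U W φ).B (Sum.inr (Sum.inl q))) else 0)
        ≤ (if z = q.1 then 1 / G.N else 0) + (if z = q.2 then 1 / G.N else 0) := by
      intro q hq
      have hne := (mem_filter.1 hq).2
      change (if z ∈ ({q.1, q.2} : Finset V) then
        Ex (fun X : V → P => if X q.1 = X q.2 then (1 : ℝ) else 0) else 0) ≤ _
      have h2 := Ex_eq_le (G := G) hne
      have h3 : 0 ≤ 1 / G.N := by positivity
      by_cases h4 : z = q.1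
      · rw [if_pos (by simp [h4]), if_pos h4]
        split_ifs <;> linarith
      · by_cases h5 : z = q.2
        · rw [if_pos (by simp [h5]), if_pos h5, if_neg h4]
          linarith
        · rw [if_neg (by simp [h4, h5]), if_neg h4, if_neg h5]; simp
    have h6 : ∀ q ∈ W ×ˢ W, (0 : ℝ) ≤ (if z = q.1 then 1 / G.N else 0)
        + (if z = q.2 then 1 / G.N else 0) := by
      intro q _
      have h3 : 0 ≤ 1 / G.N := by positivity
      split_ifs <;> linarith
    refine (sum_le_sum h1).trans ?_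
    refine (sum_le_sum_of_subset_of_nonneg (filter_subset _ _) fun q hq _ => h6 q hq).trans ?_
    rw [sum_product]
    have h7 : ∀ x ∈ W, ∑ y ∈ W, ((if z = x then 1 / G.N else 0) + (if z = y then 1 / G.N else 0))
        = (W.card : ℝ) * (if z = x then 1 / G.N else 0) + 1 / G.N := by
      intro x _
      rw [sum_add_distrib, sum_const, nsmul_eq_mul, sum_ite_eq, if_pos hz]
    rw [sum_congr rfl h7, sum_add_distrib, ← mul_sum, sum_ite_eq, if_pos hz, sum_const,
      nsmul_eq_mul]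
    rw [mul_one_div, ← add_div]
    refine div_le_div_of_nonneg_right ?_ hN.le
    linarith
  -- third kind
  have A3 : ∑ e ∈ G.E.filter (fun e => e ⊆ U ∪ W ∧ ¬ e ⊆ U), ∑ w ∈ (U ∪ W) \ e,
      (if z ∈ (G.dat U W φ).vb (Sum.inr (Sum.inr ⟨e, w⟩))
      then Ex ((G.dat U W φ).B (Sum.inr (Sum.inr ⟨e, w⟩))) else 0)
      ≤ G.mm * (G.k / G.N) + (1 / G.lam (G.k - 1) + G.k * G.mm * (G.k / G.N)) := by
    have hl := G.lam_pos (G.k - 1)
    have h1 : ∀ e ∈ G.E, ∑ w ∈ (U ∪ W) \ e,
      (if z ∈ (G.dat U W φ).vb (Sum.inr (Sum.inr ⟨e, w⟩))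
      then Ex ((G.dat U W φ).B (Sum.inr (Sum.inr ⟨e, w⟩))) else 0)
        ≤ G.k / G.N + (if z ∈ e then 1 / G.lam (G.k - 1) * (G.lam (e ∩ U).card * G.h U φ e)
          + W.card * (G.k / G.N) else 0) := by
      intro e he
      have h2 : ∀ w ∈ (U ∪ W) \ e, (if z ∈ (G.dat U W φ).vb (Sum.inr (Sum.inr ⟨e, w⟩))
          then Ex ((G.dat U W φ).B (Sum.inr (Sum.inr ⟨e, w⟩))) else 0)
          ≤ (if z = w then mass G.f U e w φ else 0)
            + (if z ∈ e then mass G.f U e w φ else 0) := by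
        intro w _
        change (if z ∈ insert w e \ U then mass G.f U e w φ else 0) ≤ _
        have h3 := mass_nonneg G.f U e w φ
        by_cases h4 : z = w
        · rw [if_pos h4]
          split_ifs <;> linarith
        · by_cases h5 : z ∈ e
          · rw [if_pos h5, if_neg h4]
            split_ifs <;> linarith
          · rw [if_neg (by simp [h4, h5]), if_neg h4, if_neg h5]; simp
      refine (sum_le_sum h2).trans ?_
      rw [sum_add_distrib, sum_ite_eq]
      refine add_le_add ?_ ?_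
      · split_ifs with h6
        · exact mass_le G.f G.hf hzU (mem_sdiff.1 h6).2 φ
        · exact hkN
      · by_cases hze : z ∈ e
        · simp only [if_pos hze]
          refine (G.sum_mass_le U W φ hb.disj e).trans (add_le_add ?_ le_rfl)
          have h7 : (e ∩ U).card ≤ G.k - 1 := by
            have h8 : (e ∩ U).card < e.card := by
              refine card_lt_card ⟨inter_subset_left, fun h9 => hzU ?_⟩
              exact (mem_inter.1 (h9 hze)).2
            rw [G.hE e he] at h8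
            omega
          have h10 := G.lam_anti h7
          have h11 := G.h_nonneg U φ e
          rw [one_div, ← mul_assoc]
          have h12 : 1 ≤ (G.lam (G.k - 1))⁻¹ * G.lam (e ∩ U).card := by
            rw [inv_mul_eq_div, le_div_iff₀ hl]; linarith
          nlinarith
        · simp only [if_neg hze]; simp
    have h0 : ∀ e ∈ G.E, 0 ≤ ∑ w ∈ (U ∪ W) \ e,
      (if z ∈ (G.dat U W φ).vb (Sum.inr (Sum.inr ⟨e, w⟩))
      then Ex ((G.dat U W φ).B (Sum.inr (Sum.inr ⟨e, w⟩))) else 0) := by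
      intro e _
      refine sum_nonneg fun w _ => ?_
      split_ifs
      · exact Ex_nonneg fun X => cf_nonneg _ _ _ _
      · exact le_rfl
    refine (sum_le_sum_of_subset_of_nonneg (filter_subset _ _) fun e he _ => h0 e he).trans ?_
    refine (sum_le_sum h1).trans ?_
    rw [sum_add_distrib, sum_const, nsmul_eq_mul, ← sum_filter, sum_add_distrib, ← mul_sum,
      sum_const, nsmul_eq_mul]
    change G.mm * _ + (1 / G.lam (G.k - 1) * G.Ψ U φ z + (G.deg z : ℝ) * (W.card * (G.k / G.N))) ≤ _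
    refine add_le_add le_rfl (add_le_add ?_ ?_)
    · have h2 := hb.psi z hzU
      have h3 : 0 ≤ 1 / G.lam (G.k - 1) := by positivity
      nlinarith
    · rw [← mul_assoc]
      exact mul_le_mul_of_nonneg_right (hb.degW z hzU) hkN
  refine (add_le_add A1 (add_le_add A2 A3)).trans ?_
  have h1 : 1 / G.lam (G.k - 1) = G.M ^ (G.k - 1) * G.M1 * G.mm / G.N := by
    have := G.M1_pos
    have := G.mm_pos
    have : 0 < G.M ^ (G.k - 1) := pow_pos hM _
    unfold lam L
    field_simp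
  rw [h1]
  have h2 : 2 * G.k * G.mm / G.N + (2 * G.k * G.mm / G.N + (G.mm * (G.k / G.N) +
      (G.M ^ (G.k - 1) * G.M1 * G.mm / G.N + G.k * G.mm * (G.k / G.N))))
      = (5 * G.k + G.k ^ 2 + G.M ^ (G.k - 1) * G.M1) * G.mm / G.N := by
    field_simp
    ring
  rw [h2]
  refine div_le_div_of_nonneg_right ?_ hN.le
  refine mul_le_mul_of_nonneg_right ?_ G.mm_pos.le
  nlinarith

/-- the hypotheses of the soft local lemma hold -/
lemma ok (hb : G.BatchHyp U W φ) :
    (G.dat U W φ).OK W (U ∪ W)ᶜ (G.k + 1) (1 / (2 * (G.k + 1))) := by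
  have hk := G.k1
  have hk1 : (0 : ℝ) < G.k + 1 := by linarith
  have hkn := G.hk
  refine ⟨?_, ?_, ?_, ?_, ?_, ?_, ?_, ?_, ?_, ?_, ?_, ?_, ?_⟩
  · rintro (y | q | t) _ X
    · change (0 : ℝ) ≤ if X y ∈ G.forb U φ then 1 else 0
      split_ifs <;> norm_num
    · change (0 : ℝ) ≤ if X q.1 = X q.2 then 1 else 0
      split_ifs <;> norm_num
    · exact cf_nonneg _ _ _ _
  · rintro (y | q | t) _ X
    · change (if X y ∈ G.forb U φ then 1 else 0 : ℝ) ≤ 1
      split_ifs <;> norm_num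
    · change (if X q.1 = X q.2 then 1 else 0 : ℝ) ≤ 1
      split_ifs <;> norm_num
    · exact cf_le_one _ _ _ _
  · rintro (y | q | t) _ X X' hX
    · change (if X y ∈ G.forb U φ then 1 else 0 : ℝ) = if X' y ∈ G.forb U φ then 1 else 0
      rw [hX y (mem_singleton_self y)]
    · change (if X q.1 = X q.2 then 1 else 0 : ℝ) = if X' q.1 = X' q.2 then 1 else 0
      rw [hX q.1 (by simp [dat]), hX q.2 (by simp [dat])]
    · refine cf_congr _ _ _ fun v hv => ?_
      by_cases hvU : v ∈ U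
      · rw [piecewise_eq_of_mem _ _ _ hvU, piecewise_eq_of_mem _ _ _ hvU]
      · rw [piecewise_eq_of_notMem _ _ _ hvU, piecewise_eq_of_notMem _ _ _ hvU]
        exact hX v (mem_sdiff.2 ⟨hv, hvU⟩)
  · rintro (y | q | t) hi
    · exact ⟨y, mem_singleton_self y⟩
    · exact ⟨q.1, by simp [dat]⟩
    · have h1 : t ∈ (G.E.filter fun e => e ⊆ U ∪ W ∧ ¬ e ⊆ U).sigma fun e => (U ∪ W) \ e := by
        have h2 := inr_mem_disjSum.1 hi
        exact inr_mem_disjSum.1 h2
      have h2 := (mem_filter.1 (mem_sigma.1 h1).1).2.2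
      obtain ⟨v, hv, hvU⟩ := not_subset.1 h2
      exact ⟨v, mem_sdiff.2 ⟨mem_insert_of_mem hv, hvU⟩⟩
  · intro v _ t _ X
    exact mul_nonneg (G.lam_pos _).le (mass_nonneg _ _ _ _ _)
  · intro v _ t _ X X' hX
    change G.lam _ * _ = G.lam _ * _
    congr 1
    refine mass_congr _ (fun _ _ => Iff.rfl) fun x hx hxD => ?_
    by_cases hxU : x ∈ U
    · rw [piecewise_eq_of_mem _ _ _ hxU, piecewise_eq_of_mem _ _ _ hxU]
    · rw [piecewise_eq_of_notMem _ _ _ hxU, piecewise_eq_of_notMem _ _ _ hxU]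
      refine hX x (mem_sdiff.2 ⟨?_, hxU⟩)
      simp only [mem_insert, mem_union] at hxD ⊢
      tauto
  · rintro (y | q | t) hi
    · change ({y} : Finset V).card ≤ _
      rw [card_singleton]; omega
    · change ({q.1, q.2} : Finset V).card ≤ _
      exact (card_le_two).trans (by omega)
    · have h1 : t ∈ (G.E.filter fun e => e ⊆ U ∪ W ∧ ¬ e ⊆ U).sigma fun e => (U ∪ W) \ e := by
        have h2 := inr_mem_disjSum.1 hi
        exact inr_mem_disjSum.1 h2
      have h2 := (mem_filter.1 (mem_sigma.1 h1).1).1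
      change (insert t.2 t.1 \ U).card ≤ _
      refine (card_le_card sdiff_subset).trans ((card_insert_le _ _).trans ?_)
      rw [G.hE _ h2]
  · intro v _ t ht
    have ht' : t ∈ (G.E.filter (v ∈ ·)).sigma fun e => (e ∩ W).powerset ×ˢ ((U ∪ W) \ e) := ht
    rw [mem_sigma, mem_product, mem_powerset, mem_filter] at ht'
    change (insert t.2.2 t.2.1 \ U).card ≤ _
    refine (card_le_card sdiff_subset).trans ((card_insert_le _ _).trans ?_)
    have h1 : t.2.1.card ≤ t.1.card := card_le_card (ht'.2.1.trans inter_subset_left)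
    rw [G.hE _ ht'.1.1] at h1
    omega
  · positivity
  · rw [div_le_one (by positivity)]; linarith
  · push_cast
    rw [mul_one_div, div_le_div_iff₀ (by positivity) (by norm_num)]
    linarith
  · intro v hv
    exact small_sum hb (by simpa using hv)
  · intro z hz
    have h1 := bads hb hz
    have h2 := flips hb hz
    have hN := G.N_pos
    have hm := G.mm_pos
    have h3 : (7 * G.k ^ 2 + G.M ^ (G.k - 1) * G.M1) * G.mm / G.N ≤ 1 / (32 * (G.k + 1)) := by
      rw [div_le_div_iff₀ hN (by positivity)]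
      have := hb.large
      linarith
    have h4 : 2 * (1 / (32 * ((G.k : ℝ) + 1))) + 8 * (3 / (64 * (G.k + 1)))
        ≤ 1 / (2 * (G.k + 1)) := by
      rw [show 2 * (1 / (32 * ((G.k : ℝ) + 1))) = 1 / 16 * (1 / (G.k + 1)) by field_simp; norm_num,
        show 8 * (3 / (64 * ((G.k : ℝ) + 1))) = 3 / 8 * (1 / (G.k + 1)) by field_simp; norm_num,
        show 1 / (2 * ((G.k : ℝ) + 1)) = 1 / 2 * (1 / (G.k + 1)) by field_simp]
      have h14 : (0 : ℝ) < 1 / (G.k + 1) := by positivity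
      nlinarith
    linarith

end Ctx

end Pool.Agent.MPa1d272
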