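import Pool.Agent.Lib.MP_a1d272_co.Soft

/-!
Conditional conflict probabilities.
-/

namespace Pool.Agent.MPa1d272

open Finset

set_option linter.unusedSectionVars false

variable {V P : Type*} [Fintype V] [DecidableEq V] [Fintype P] [DecidableEq P] [Nonempty P]

variable (f : Finset P → Finset P)

/-- indicator that the image of `w` lies in `f` of the image of `e` -/
noncomputable def cf (e : Finset V) (w : V) (x : V → P) : ℝ :=
  if x w ∈ f (e.image x) then 1 else 0

/-- conditional probability of the conflict `(e,w)` when the coordinates in `D` are fixed to `x`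
and all others are resampled uniformly -/
noncomputable def mass (D e : Finset V) (w : V) (x : V → P) : ℝ :=
  Ex (fun g : V → P => cf f e w (D.piecewise x g))

lemma cf_nonneg (e : Finset V) (w : V) (x : V → P) : 0 ≤ cf f e w x := by
  unfold cf; split_ifs <;> norm_num

lemma cf_le_one (e : Finset V) (w : V) (x : V → P) : cf f e w x ≤ 1 := by
  unfold cf; split_ifs <;> norm_num

lemma cf_congr (e : Finset V) (w : V) {x y : V → P} (h : ∀ v ∈ insert w e, x v = y v) :
    cf f e w x = cf f e w y := by
  unfold cf
  have h1 : e.image x = e.image y :=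
    image_congr fun v hv => h v (mem_insert_of_mem hv)
  rw [h1, h w (mem_insert_self _ _)]

lemma mass_nonneg (D e : Finset V) (w : V) (x : V → P) : 0 ≤ mass f D e w x :=
  Ex_nonneg fun _ => cf_nonneg f _ _ _

lemma mass_congr {D D' e : Finset V} {w : V} {x y : V → P}
    (hD : ∀ v ∈ insert w e, (v ∈ D ↔ v ∈ D'))
    (hx : ∀ v ∈ insert w e, v ∈ D → x v = y v) : mass f D e w x = mass f D' e w y := by
  unfold mass
  congr 1
  funext g
  refine cf_congr f e w fun v hv => ?_
  by_cases h1 : v ∈ D
  · rw [piecewise_eq_of_mem _ _ _ h1, piecewise_eq_of_mem _ _ _ ((hD v hv).1 h1), hx v hv h1]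
  · rw [piecewise_eq_of_notMem _ _ _ h1, piecewise_eq_of_notMem _ _ _ (fun h2 => h1 ((hD v hv).2 h2))]

lemma mass_full {D e : Finset V} {w : V} (h : insert w e ⊆ D) (x : V → P) :
    mass f D e w x = cf f e w x := by
  unfold mass
  have : (fun g : V → P => cf f e w (D.piecewise x g)) = fun _ => cf f e w x := by
    funext g
    exact cf_congr f e w fun v hv => piecewise_eq_of_mem _ _ _ (h hv)
  rw [this, Ex_const]

/-- tower property -/
lemma Ex_mass {U D : Finset V} (hUD : U ⊆ D) (e : Finset V) (w : V) (φ : V → P) :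
    Ex (fun X : V → P => mass f D e w (U.piecewise φ X)) = mass f U e w φ := by
  unfold mass
  have h1 := Ex_Ex_piecewise D (fun Y : V → P => cf f e w (U.piecewise φ Y))
  rw [← h1]
  congr 1
  funext X
  congr 1
  funext g
  congr 1
  funext v
  by_cases hv : v ∈ U
  · rw [piecewise_eq_of_mem _ _ _ (hUD hv), piecewise_eq_of_mem _ _ _ hv,
      piecewise_eq_of_mem _ _ _ hv]
  · by_cases hv' : v ∈ D
    · rw [piecewise_eq_of_mem _ _ _ hv', piecewise_eq_of_notMem _ _ _ hv,
        piecewise_eq_of_notMem _ _ _ hv, piecewise_eq_of_mem _ _ _ hv']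
    · rw [piecewise_eq_of_notMem _ _ _ hv', piecewise_eq_of_notMem _ _ _ hv,
        piecewise_eq_of_notMem _ _ _ hv']

/-- expectation of a conflict indicator -/
lemma Ex_cf (U e : Finset V) (w : V) (φ : V → P) :
    Ex (fun X : V → P => cf f e w (U.piecewise φ X)) = mass f U e w φ := rfl

lemma mass_le {k : ℕ} (hf : ∀ s, (f s).card ≤ k) {D e : Finset V} {w : V} (hwD : w ∉ D)
    (hwe : w ∉ e) (x : V → P) : mass f D e w x ≤ (k : ℝ) / (Fintype.card P : ℝ) := by
  unfold mass cf
  have h1 : ∀ g : V → P, (D.piecewise x g) w = g w := fun g => piecewise_eq_of_notMem _ _ _ hwD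
  simp only [h1]
  refine Ex_mem_le w (fun g : V → P => f (e.image (D.piecewise x g))) ?_ k ?_
  · intro g p
    show f (e.image (D.piecewise x (Function.update g w p))) = f (e.image (D.piecewise x g))
    congr 1
    refine image_congr fun v hv => ?_
    have hvw : v ≠ w := fun h => hwe (h ▸ hv)
    by_cases h2 : v ∈ D
    · rw [piecewise_eq_of_mem _ _ _ h2, piecewise_eq_of_mem _ _ _ h2]
    · rw [piecewise_eq_of_notMem _ _ _ h2, piecewise_eq_of_notMem _ _ _ h2,
        Function.update_of_ne hvw]
  · intro g
    exact_mod_cast hf _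

end Pool.Agent.MPa1d272
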