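import Pool.Agent.Lib.MP_a1d272_co.Ex

/-!
A local lemma with soft (truncated linear) constraints, in a product space.
-/

namespace Pool.Agent.MPa1d272

open Finset

set_option linter.unusedSectionVars false

/-- the truncation: `1` up to `1/2`, linear down to `0` at `1`. -/
noncomputable def Fc (x : ℝ) : ℝ := max 0 (min 1 (2 - 2 * x))

lemma Fc_nonneg (x : ℝ) : 0 ≤ Fc x := le_max_left _ _

lemma Fc_le_one (x : ℝ) : Fc x ≤ 1 := max_le zero_le_one (min_le_left _ _)

lemma Fc_eq_one {x : ℝ} (h : x ≤ 1 / 2) : Fc x = 1 := by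
  unfold Fc
  rw [min_eq_left (by linarith), max_eq_right zero_le_one]

lemma lt_one_of_Fc_pos {x : ℝ} (h : 0 < Fc x) : x < 1 := by
  by_contra hx
  push Not at hx
  have : Fc x = 0 := by
    unfold Fc
    rw [max_eq_left]
    exact (min_le_right _ _).trans (by linarith)
  linarith

lemma Fc_anti {x y : ℝ} (h : x ≤ y) : Fc y ≤ Fc x := by
  unfold Fc
  exact max_le_max le_rfl (min_le_min le_rfl (by linarith))

lemma Fc_sub_le {x y : ℝ} (h : x ≤ y) : Fc x - Fc y ≤ 2 * (y - x) := by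
  unfold Fc
  rcases max_cases 0 (min 1 (2 - 2 * x)) with h1 | h1 <;>
  rcases max_cases 0 (min 1 (2 - 2 * y)) with h2 | h2 <;>
  rcases min_cases 1 (2 - 2 * x) with h3 | h3 <;>
  rcases min_cases 1 (2 - 2 * y) with h4 | h4 <;>
  linarith [h1.1, h1.2, h2.1, h2.2, h3.1, h3.2, h4.1, h4.2]

lemma one_sub_Fc_le {x : ℝ} (h : 0 ≤ x) : 1 - Fc x ≤ 2 * x := by
  have h1 := Fc_sub_le h
  have h2 : Fc 0 = 1 := Fc_eq_one (by norm_num)
  linarith

lemma prod_sub_prod_le {α : Type*} [DecidableEq α] (s : Finset α) (a b : α → ℝ)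
    (hb : ∀ i ∈ s, 0 ≤ b i) (hab : ∀ i ∈ s, b i ≤ a i) :
    ∏ i ∈ s, a i - ∏ i ∈ s, b i ≤ ∑ i ∈ s, (a i - b i) * ∏ j ∈ s.erase i, a j := by
  induction s using Finset.induction_on with
  | empty => simp
  | insert x s hx ih =>
    have ih' := ih (fun i hi => hb i (mem_insert_of_mem hi)) (fun i hi => hab i (mem_insert_of_mem hi))
    rw [prod_insert hx, prod_insert hx, sum_insert hx, erase_insert hx]
    have h1 : ∑ i ∈ s, (a i - b i) * ∏ j ∈ (insert x s).erase i, a j
        = a x * ∑ i ∈ s, (a i - b i) * ∏ j ∈ s.erase i, a j := by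
      rw [mul_sum]
      refine sum_congr rfl fun i hi => ?_
      have hne : x ≠ i := fun h => hx (h ▸ hi)
      rw [erase_insert_of_ne hne, prod_insert (by simp [hx])]
      ring
    rw [h1]
    have hbx : 0 ≤ b x := hb x (mem_insert_self _ _)
    have habx : b x ≤ a x := hab x (mem_insert_self _ _)
    have hS : 0 ≤ ∑ i ∈ s, (a i - b i) * ∏ j ∈ s.erase i, a j := by
      refine sum_nonneg fun i hi => mul_nonneg ?_ (prod_nonneg fun j hj => ?_)
      · linarith [hab i (mem_insert_of_mem hi)]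
      · have hj' : j ∈ insert x s := mem_insert_of_mem (mem_of_mem_erase hj)
        exact (hb j hj').trans (hab j hj')
    have h2 : b x * (∏ i ∈ s, a i - ∏ i ∈ s, b i)
        ≤ a x * ∑ i ∈ s, (a i - b i) * ∏ j ∈ s.erase i, a j := by
      calc _ ≤ b x * ∑ i ∈ s, (a i - b i) * ∏ j ∈ s.erase i, a j :=
            mul_le_mul_of_nonneg_left ih' hbx
        _ ≤ _ := mul_le_mul_of_nonneg_right habx hS
    nlinarith

variable {V P ι J κ : Type*} [Fintype V] [DecidableEq V] [Fintype P] [Nonempty P]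
  [DecidableEq ι] [DecidableEq J]

/-- data of the soft local lemma -/
structure Soft (V P ι J κ : Type*) where
  /-- indices of bad events -/
  I : Finset ι
  /-- bad events, as `[0,1]`-valued functions -/
  B : ι → (V → P) → ℝ
  /-- the coordinates a bad event depends on -/
  vb : ι → Finset V
  /-- indices of the terms of the soft constraint `j` -/
  Tm : J → Finset κ
  /-- terms of the soft constraint -/
  m : J → κ → (V → P) → ℝ
  /-- the coordinates a term depends on -/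
  tv : J → κ → Finset V

namespace Soft

variable (D : Soft V P ι J κ)

/-- load of the soft constraint on the terms inside `Y`, constraint `j` -/
noncomputable def Φ (Y : Finset V) (j : J) (X : V → P) : ℝ :=
  ∑ t ∈ D.Tm j, if D.tv j t ⊆ Y then D.m j t X else 0

/-- the bad events part of the weight -/
noncomputable def PB (Y : Finset V) (X : V → P) : ℝ :=
  ∏ i ∈ D.I, if D.vb i ⊆ Y then 1 - D.B i X else 1

/-- the soft part of the weight -/
noncomputable def PF (S : Finset J) (Y : Finset V) (X : V → P) : ℝ :=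
  ∏ j ∈ S, Fc (D.Φ Y j X)

/-- the weight -/
noncomputable def wt (S : Finset J) (Y : Finset V) (X : V → P) : ℝ :=
  D.PB Y X * D.PF S Y X

/-- hypotheses of the soft local lemma -/
structure OK (W : Finset V) (S₀ : Finset J) (K : ℕ) (ε : ℝ) : Prop where
  B0 : ∀ i ∈ D.I, ∀ X, 0 ≤ D.B i X
  B1 : ∀ i ∈ D.I, ∀ X, D.B i X ≤ 1
  Bdep : ∀ i ∈ D.I, DepOn (D.vb i) (D.B i)
  Bne : ∀ i ∈ D.I, (D.vb i).Nonempty
  m0 : ∀ j ∈ S₀, ∀ t ∈ D.Tm j, ∀ X, 0 ≤ D.m j t X
  mdep : ∀ j ∈ S₀, ∀ t ∈ D.Tm j, DepOn (D.tv j t) (D.m j t)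
  vbK : ∀ i ∈ D.I, (D.vb i).card ≤ K
  tvK : ∀ j ∈ S₀, ∀ t ∈ D.Tm j, (D.tv j t).card ≤ K
  eps0 : 0 ≤ ε
  eps1 : ε ≤ 1
  epsK : K * ε ≤ 1 / 2
  small : ∀ j ∈ S₀, ∑ t ∈ D.Tm j, Ex (D.m j t) ≤ 1 / 8
  loc : ∀ z ∈ W, 2 * ∑ i ∈ D.I, (if z ∈ D.vb i then Ex (D.B i) else 0)
    + 8 * ∑ j ∈ S₀, ∑ t ∈ D.Tm j, (if z ∈ D.tv j t then Ex (D.m j t) else 0) ≤ ε

variable {D} {W : Finset V} {S₀ : Finset J} {K : ℕ} {ε : ℝ}

namespace OK

variable (h : D.OK W S₀ K ε)

include h

lemma fac0 {i : ι} (hi : i ∈ D.I) (Y : Finset V) (X : V → P) :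
    0 ≤ (if D.vb i ⊆ Y then 1 - D.B i X else 1) := by
  split_ifs
  · linarith [h.B1 i hi X]
  · exact zero_le_one

lemma fac_le {i : ι} (hi : i ∈ D.I) {Y Y' : Finset V} (hY : Y' ⊆ Y) (X : V → P) :
    (if D.vb i ⊆ Y then 1 - D.B i X else 1) ≤ (if D.vb i ⊆ Y' then 1 - D.B i X else 1) := by
  have := h.B0 i hi X
  by_cases h1 : D.vb i ⊆ Y'
  · rw [if_pos h1, if_pos (h1.trans hY)]
  · rw [if_neg h1]
    split_ifs <;> linarith

lemma PB0 (Y : Finset V) (X : V → P) : 0 ≤ D.PB Y X :=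
  prod_nonneg fun _ hi => h.fac0 hi Y X

omit h in
lemma PF0 (S : Finset J) (Y : Finset V) (X : V → P) : 0 ≤ D.PF S Y X :=
  prod_nonneg fun _ _ => Fc_nonneg _

lemma wt0 (S : Finset J) (Y : Finset V) (X : V → P) : 0 ≤ D.wt S Y X :=
  mul_nonneg (h.PB0 Y X) (PF0 S Y X)

lemma Φ0 {j : J} (hj : j ∈ S₀) (Y : Finset V) (X : V → P) : 0 ≤ D.Φ Y j X := by
  refine sum_nonneg fun t ht => ?_
  split_ifs
  · exact h.m0 j hj t ht X
  · exact le_rfl

lemma Φ_mono {j : J} (hj : j ∈ S₀) {Y Y' : Finset V} (hY : Y' ⊆ Y) (X : V → P) :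
    D.Φ Y' j X ≤ D.Φ Y j X := by
  refine sum_le_sum fun t ht => ?_
  have := h.m0 j hj t ht X
  by_cases h1 : D.tv j t ⊆ Y'
  · rw [if_pos h1, if_pos (h1.trans hY)]
  · rw [if_neg h1]
    split_ifs <;> linarith

lemma PB_anti {Y Y' : Finset V} (hY : Y' ⊆ Y) (X : V → P) : D.PB Y X ≤ D.PB Y' X :=
  prod_le_prod (fun _ hi => h.fac0 hi Y X) fun _ hi => h.fac_le hi hY X

lemma PF_anti {S : Finset J} (hS : S ⊆ S₀) {Y Y' : Finset V} (hY : Y' ⊆ Y) (X : V → P) :
    D.PF S Y X ≤ D.PF S Y' X :=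
  prod_le_prod (fun _ _ => Fc_nonneg _) fun _ hj => Fc_anti (h.Φ_mono (hS hj) hY X)

lemma wt_anti {S : Finset J} (hS : S ⊆ S₀) {Y Y' : Finset V} (hY : Y' ⊆ Y) (X : V → P) :
    D.wt S Y X ≤ D.wt S Y' X :=
  mul_le_mul (h.PB_anti hY X) (h.PF_anti hS hY X) (PF0 S Y X) (h.PB0 Y' X)

lemma wt_dep {S : Finset J} (hS : S ⊆ S₀) (Y : Finset V) : DepOn Y (D.wt S Y) := by
  intro X X' hX
  unfold wt PB PF Φ
  congr 1
  · refine prod_congr rfl fun i hi => ?_
    by_cases h1 : D.vb i ⊆ Y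
    · rw [if_pos h1, if_pos h1, h.Bdep i hi X X' fun v hv => hX v (h1 hv)]
    · rw [if_neg h1, if_neg h1]
  · refine prod_congr rfl fun j hj => ?_
    congr 1
    refine sum_congr rfl fun t ht => ?_
    by_cases h1 : D.tv j t ⊆ Y
    · rw [if_pos h1, if_pos h1, h.mdep j (hS hj) t ht X X' fun v hv => hX v (h1 hv)]
    · rw [if_neg h1, if_neg h1]

omit h in
lemma wt_erase {S : Finset J} {j : J} (hj : j ∈ S) (Y : Finset V) (X : V → P) :
    D.wt S Y X = Fc (D.Φ Y j X) * D.wt (S.erase j) Y X := by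
  unfold wt PF
  rw [← mul_prod_erase S _ hj]
  ring

/-- pointwise loss when a coordinate is added -/
lemma loss {S : Finset J} (hS : S ⊆ S₀) {Y : Finset V} {z : V} (hz : z ∈ Y) (X : V → P) :
    D.wt S (Y.erase z) X - D.wt S Y X ≤
      ∑ i ∈ D.I, (if z ∈ D.vb i then D.B i X * D.wt S (Y.erase z) X else 0)
      + ∑ j ∈ S, ∑ t ∈ D.Tm j,
        (if z ∈ D.tv j t then 2 * (D.m j t X * D.wt (S.erase j) (Y.erase z) X) else 0) := by
  classical
  set Y' := Y.erase z with hY'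
  have hsub : Y' ⊆ Y := erase_subset _ _
  have key : ∀ A : Finset V, z ∉ A → (A ⊆ Y ↔ A ⊆ Y') := by
    intro A hA
    constructor
    · intro h1 x hx
      exact mem_erase.2 ⟨fun h2 => hA (h2 ▸ hx), h1 hx⟩
    · exact fun h1 => h1.trans hsub
  have keyz : ∀ A : Finset V, z ∈ A → ¬ A ⊆ Y' := fun A hA h1 => (mem_erase.1 (h1 hA)).1 rfl
  -- bad event part
  have hB : D.PB Y' X - D.PB Y X ≤ ∑ i ∈ D.I, (if z ∈ D.vb i then D.B i X * D.PB Y' X else 0) := by
    unfold PB
    refine (prod_sub_prod_le D.I _ _ (fun i hi => h.fac0 hi Y X)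
      (fun i hi => h.fac_le hi hsub X)).trans ?_
    refine sum_le_sum fun i hi => ?_
    by_cases hzi : z ∈ D.vb i
    · rw [if_pos hzi, if_neg (keyz _ hzi)]
      have h1 : ∏ j ∈ D.I.erase i, (if D.vb j ⊆ Y' then 1 - D.B j X else 1)
          = ∏ j ∈ D.I, (if D.vb j ⊆ Y' then 1 - D.B j X else 1) := by
        rw [← mul_prod_erase D.I _ hi, if_neg (keyz _ hzi), one_mul]
      rw [h1]
      refine mul_le_mul_of_nonneg_right ?_ (h.PB0 Y' X)
      have := h.B0 i hi X
      split_ifs <;> linarith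
    · rw [if_neg hzi]
      have := key _ hzi
      by_cases h2 : D.vb i ⊆ Y
      · rw [if_pos h2, if_pos (this.1 h2)]; simp
      · rw [if_neg h2, if_neg (fun h3 => h2 (this.2 h3))]; simp
  have hF : D.PF S Y' X - D.PF S Y X ≤ ∑ j ∈ S, ∑ t ∈ D.Tm j,
        (if z ∈ D.tv j t then 2 * (D.m j t X * D.PF (S.erase j) Y' X) else 0) := by
    unfold PF
    refine (prod_sub_prod_le S _ _ (fun j hj => Fc_nonneg _)
      (fun j hj => Fc_anti (h.Φ_mono (hS hj) hsub X))).trans ?_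
    refine sum_le_sum fun j hj => ?_
    have h1 : Fc (D.Φ Y' j X) - Fc (D.Φ Y j X) ≤
        ∑ t ∈ D.Tm j, (if z ∈ D.tv j t then 2 * D.m j t X else 0) := by
      refine (Fc_sub_le (h.Φ_mono (hS hj) hsub X)).trans ?_
      unfold Φ
      rw [← sum_sub_distrib, mul_sum]
      refine sum_le_sum fun t ht => ?_
      have hm := h.m0 j (hS hj) t ht X
      by_cases hzt : z ∈ D.tv j t
      · rw [if_pos hzt, if_neg (keyz _ hzt)]
        split_ifs <;> linarith
      · rw [if_neg hzt]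
        have := key _ hzt
        by_cases h2 : D.tv j t ⊆ Y
        · rw [if_pos h2, if_pos (this.1 h2)]; simp
        · rw [if_neg h2, if_neg (fun h3 => h2 (this.2 h3))]; simp
    refine (mul_le_mul_of_nonneg_right h1 (PF0 (S.erase j) Y' X)).trans ?_
    rw [sum_mul]
    refine le_of_eq (sum_congr rfl fun t _ => ?_)
    split_ifs
    · unfold PF; ring
    · simp
  have h1 : D.wt S Y' X - D.wt S Y X
      ≤ (D.PB Y' X - D.PB Y X) * D.PF S Y' X + D.PB Y' X * (D.PF S Y' X - D.PF S Y X) := by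
    unfold wt
    have h2 := h.PB_anti hsub X
    have h3 := h.PF_anti hS hsub X
    nlinarith [mul_nonneg (sub_nonneg.2 h2) (sub_nonneg.2 h3)]
  refine h1.trans (add_le_add ?_ ?_)
  · refine (mul_le_mul_of_nonneg_right hB (PF0 S Y' X)).trans (le_of_eq ?_)
    rw [sum_mul]
    refine sum_congr rfl fun i _ => ?_
    split_ifs
    · unfold wt; ring
    · simp
  · refine (mul_le_mul_of_nonneg_left hF (h.PB0 Y' X)).trans (le_of_eq ?_)
    rw [mul_sum]
    refine sum_congr rfl fun j _ => ?_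
    rw [mul_sum]
    refine sum_congr rfl fun t _ => ?_
    split_ifs
    · unfold wt; ring
    · simp

/-- deleting at most `K` coordinates costs at most a factor `2` -/
lemma del {Y : Finset V} {S : Finset J}
    (hI : ∀ Y' ⊆ Y, ∀ z ∈ Y', (1 - ε) * Ex (D.wt S (Y'.erase z)) ≤ Ex (D.wt S Y'))
    (Q : Finset V) (hQ : Q.card ≤ K) : Ex (D.wt S (Y \ Q)) ≤ 2 * Ex (D.wt S Y) := by
  have h1 : ∀ Q : Finset V, (1 - ε) ^ Q.card * Ex (D.wt S (Y \ Q)) ≤ Ex (D.wt S Y) := by
    intro Q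
    induction Q using Finset.induction_on with
    | empty => simp
    | insert q Q hq ih =>
      rw [card_insert_of_notMem hq, pow_succ]
      have he : Y \ insert q Q = (Y \ Q).erase q := by
        ext x; simp only [mem_sdiff, mem_insert, mem_erase]; tauto
      have hpow : 0 ≤ (1 - ε) ^ Q.card := pow_nonneg (by linarith [h.eps1]) _
      rw [he]
      by_cases hqY : q ∈ Y \ Q
      · have := hI (Y \ Q) sdiff_subset q hqY
        calc _ = (1 - ε) ^ Q.card * ((1 - ε) * Ex (D.wt S ((Y \ Q).erase q))) := by ring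
          _ ≤ (1 - ε) ^ Q.card * Ex (D.wt S (Y \ Q)) := mul_le_mul_of_nonneg_left this hpow
          _ ≤ _ := ih
      · rw [erase_eq_of_notMem hqY]
        have hw : 0 ≤ Ex (D.wt S (Y \ Q)) := Ex_nonneg fun X => h.wt0 _ _ X
        have h2 : (1 - ε) ^ Q.card * (1 - ε) * Ex (D.wt S (Y \ Q))
            ≤ (1 - ε) ^ Q.card * Ex (D.wt S (Y \ Q)) := by
          refine mul_le_mul_of_nonneg_right ?_ hw
          nlinarith [h.eps0]
        exact h2.trans ih
  have h2 := h1 Q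
  have h3 : (1 : ℝ) / 2 ≤ (1 - ε) ^ Q.card := by
    have hb : 1 + (Q.card : ℝ) * (-ε) ≤ (1 + (-ε)) ^ Q.card :=
      one_add_mul_le_pow (by linarith [h.eps1]) _
    have hc : (Q.card : ℝ) * ε ≤ K * ε :=
      mul_le_mul_of_nonneg_right (by exact_mod_cast hQ) h.eps0
    have := h.epsK
    have he : (1 + (-ε)) = 1 - ε := by ring
    rw [he] at hb
    linarith
  have hw : 0 ≤ Ex (D.wt S (Y \ Q)) := Ex_nonneg fun X => h.wt0 _ _ X
  nlinarith

/-- correlation with a function of few coordinates costs at most a factor `2` -/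
lemma corr {Y : Finset V} {S : Finset J} (hS : S ⊆ S₀)
    (hI : ∀ Y' ⊆ Y, ∀ z ∈ Y', (1 - ε) * Ex (D.wt S (Y'.erase z)) ≤ Ex (D.wt S Y'))
    (Q : Finset V) (hQ : Q.card ≤ K) (T : (V → P) → ℝ) (hT0 : ∀ X, 0 ≤ T X) (hT : DepOn Q T) :
    Ex (fun X => T X * D.wt S Y X) ≤ 2 * Ex T * Ex (D.wt S Y) := by
  have h1 : Ex (fun X => T X * D.wt S Y X) ≤ Ex (fun X => T X * D.wt S (Y \ Q) X) :=
    Ex_mono fun X => mul_le_mul_of_nonneg_left (h.wt_anti hS sdiff_subset X) (hT0 X)
  have h2 : Ex (fun X => T X * D.wt S (Y \ Q) X) = Ex T * Ex (D.wt S (Y \ Q)) :=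
    Ex_mul_of_disjoint disjoint_sdiff hT (h.wt_dep hS _)
  have h3 := h.del hI Q hQ
  have h4 : 0 ≤ Ex T := Ex_nonneg hT0
  rw [h2] at h1
  nlinarith

/-- the main induction -/
lemma induct (Y : Finset V) : Y ⊆ W →
    (∀ S ⊆ S₀, ∀ z ∈ Y, (1 - ε) * Ex (D.wt S (Y.erase z)) ≤ Ex (D.wt S Y)) ∧
    (∀ S ⊆ S₀, ∀ j ∈ S, Ex (D.wt (S.erase j) Y) ≤ 2 * Ex (D.wt S Y)) := by
  induction Y using Finset.strongInduction with
  | H Y ih =>
    intro hYW
    -- (I1)
    have I1 : ∀ S ⊆ S₀, ∀ z ∈ Y, (1 - ε) * Ex (D.wt S (Y.erase z)) ≤ Ex (D.wt S Y) := by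
      intro S hS z hz
      set Y' := Y.erase z with hY'
      have hss : Y' ⊂ Y := erase_ssubset hz
      have hI : ∀ S ⊆ S₀, ∀ Y'' ⊆ Y', ∀ z ∈ Y'',
          (1 - ε) * Ex (D.wt S (Y''.erase z)) ≤ Ex (D.wt S Y'') := fun S hS Y'' hY'' z hz =>
        (ih Y'' (lt_of_le_of_lt hY'' hss) ((hY''.trans hss.1).trans hYW)).1 S hS z hz
      have hI2 : ∀ j ∈ S, Ex (D.wt (S.erase j) Y') ≤ 2 * Ex (D.wt S Y') := fun j hj =>
        (ih Y' hss (hss.1.trans hYW)).2 S hS j hj
      have hw : 0 ≤ Ex (D.wt S Y') := Ex_nonneg fun X => h.wt0 _ _ X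
      have h1 : Ex (D.wt S Y') - Ex (D.wt S Y) ≤
          ∑ i ∈ D.I, (if z ∈ D.vb i then Ex (fun X => D.B i X * D.wt S Y' X) else 0)
          + ∑ j ∈ S, ∑ t ∈ D.Tm j,
            (if z ∈ D.tv j t then 2 * Ex (fun X => D.m j t X * D.wt (S.erase j) Y' X) else 0) := by
        rw [← Ex_sub]
        refine (Ex_mono fun X => h.loss hS hz X).trans (le_of_eq ?_)
        rw [Ex_add, Ex_sum, Ex_sum]
        congr 1
        · refine sum_congr rfl fun i _ => ?_
          by_cases hc : z ∈ D.vb i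
          · simp only [if_pos hc]; rfl
          · simp only [if_neg hc]; exact Ex_const 0
        · refine sum_congr rfl fun j _ => ?_
          rw [Ex_sum]
          refine sum_congr rfl fun t _ => ?_
          by_cases hc : z ∈ D.tv j t
          · simp only [if_pos hc]; rw [Ex_mul_left]
          · simp only [if_neg hc]; exact Ex_const 0
      have h2 : ∑ i ∈ D.I, (if z ∈ D.vb i then Ex (fun X => D.B i X * D.wt S Y' X) else 0)
          ≤ (2 * ∑ i ∈ D.I, (if z ∈ D.vb i then Ex (D.B i) else 0)) * Ex (D.wt S Y') := by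
        rw [mul_sum, sum_mul]
        refine sum_le_sum fun i hi => ?_
        by_cases hc : z ∈ D.vb i
        · simp only [if_pos hc]
          exact h.corr hS (hI S hS) (D.vb i) (h.vbK i hi) (D.B i) (h.B0 i hi) (h.Bdep i hi)
        · simp only [if_neg hc]; simp
      have h3 : ∑ j ∈ S, ∑ t ∈ D.Tm j,
            (if z ∈ D.tv j t then 2 * Ex (fun X => D.m j t X * D.wt (S.erase j) Y' X) else 0)
          ≤ (8 * ∑ j ∈ S₀, ∑ t ∈ D.Tm j, (if z ∈ D.tv j t then Ex (D.m j t) else 0))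
            * Ex (D.wt S Y') := by
        have h4 : ∑ j ∈ S, ∑ t ∈ D.Tm j, (if z ∈ D.tv j t then Ex (D.m j t) else 0)
            ≤ ∑ j ∈ S₀, ∑ t ∈ D.Tm j, (if z ∈ D.tv j t then Ex (D.m j t) else 0) := by
          refine sum_le_sum_of_subset_of_nonneg hS fun j hj _ => sum_nonneg fun t ht => ?_
          split_ifs
          · exact Ex_nonneg (h.m0 j hj t ht)
          · exact le_rfl
        have h5 : ∑ j ∈ S, ∑ t ∈ D.Tm j,
            (if z ∈ D.tv j t then 2 * Ex (fun X => D.m j t X * D.wt (S.erase j) Y' X) else 0)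
            ≤ (8 * ∑ j ∈ S, ∑ t ∈ D.Tm j, (if z ∈ D.tv j t then Ex (D.m j t) else 0))
            * Ex (D.wt S Y') := by
          rw [mul_sum, sum_mul]
          refine sum_le_sum fun j hj => ?_
          rw [mul_sum, sum_mul]
          refine sum_le_sum fun t ht => ?_
          by_cases hc : z ∈ D.tv j t
          · simp only [if_pos hc]
            have h6 := h.corr ((erase_subset j S).trans hS) (hI _ ((erase_subset j S).trans hS))
              (D.tv j t) (h.tvK j (hS hj) t ht) (D.m j t) (h.m0 j (hS hj) t ht)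
              (h.mdep j (hS hj) t ht)
            have h7 : 0 ≤ Ex (D.m j t) := Ex_nonneg (h.m0 j (hS hj) t ht)
            have h8 := hI2 j hj
            have h9 : Ex (D.m j t) * Ex (D.wt (S.erase j) Y')
                ≤ Ex (D.m j t) * (2 * Ex (D.wt S Y')) := mul_le_mul_of_nonneg_left h8 h7
            linarith
          · simp only [if_neg hc]; simp
        refine h5.trans (mul_le_mul_of_nonneg_right ?_ hw)
        linarith
      have h4 := h.loc z (hYW hz)
      have h5 := mul_le_mul_of_nonneg_right h4 hw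
      linarith
    refine ⟨I1, ?_⟩
    -- (I2)
    intro S hS j hj
    have hSe : S.erase j ⊆ S₀ := (erase_subset j S).trans hS
    have hI : ∀ Y'' ⊆ Y, ∀ z ∈ Y'',
        (1 - ε) * Ex (D.wt (S.erase j) (Y''.erase z)) ≤ Ex (D.wt (S.erase j) Y'') := by
      intro Y'' hY'' z hz
      rcases hY''.eq_or_ssubset with he | hss
      · subst he; exact I1 _ hSe z hz
      · exact (ih Y'' hss (hY''.trans hYW)).1 _ hSe z hz
    have h1 : Ex (D.wt (S.erase j) Y) - Ex (D.wt S Y) ≤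
        ∑ t ∈ D.Tm j, 2 * Ex (fun X => D.m j t X * D.wt (S.erase j) Y X) := by
      rw [← Ex_sub]
      have h2 : ∀ X, D.wt (S.erase j) Y X - D.wt S Y X ≤
          ∑ t ∈ D.Tm j, 2 * (D.m j t X * D.wt (S.erase j) Y X) := by
        intro X
        rw [wt_erase hj Y X]
        have h3 := one_sub_Fc_le (h.Φ0 (hS hj) Y X)
        have h4 : D.Φ Y j X ≤ ∑ t ∈ D.Tm j, D.m j t X := by
          refine sum_le_sum fun t ht => ?_
          have := h.m0 j (hS hj) t ht X
          split_ifs <;> linarith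
        have h5 := h.wt0 (S.erase j) Y X
        have h6 : ∑ t ∈ D.Tm j, 2 * (D.m j t X * D.wt (S.erase j) Y X)
            = 2 * (∑ t ∈ D.Tm j, D.m j t X) * D.wt (S.erase j) Y X := by
          rw [mul_assoc, sum_mul, mul_sum]
        rw [h6]
        have h7 : (1 - Fc (D.Φ Y j X)) * D.wt (S.erase j) Y X
            ≤ (2 * ∑ t ∈ D.Tm j, D.m j t X) * D.wt (S.erase j) Y X :=
          mul_le_mul_of_nonneg_right (by linarith) h5
        linarith
      refine (Ex_mono h2).trans (le_of_eq ?_)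
      rw [Ex_sum]
      refine sum_congr rfl fun t _ => ?_
      rw [Ex_mul_left]
    have h2 : ∑ t ∈ D.Tm j, 2 * Ex (fun X => D.m j t X * D.wt (S.erase j) Y X)
        ≤ 4 * (∑ t ∈ D.Tm j, Ex (D.m j t)) * Ex (D.wt (S.erase j) Y) := by
      rw [mul_sum, sum_mul]
      refine sum_le_sum fun t ht => ?_
      have h6 := h.corr hSe hI
        (D.tv j t) (h.tvK j (hS hj) t ht) (D.m j t) (h.m0 j (hS hj) t ht)
        (h.mdep j (hS hj) t ht)
      linarith
    have h3 : 0 ≤ Ex (D.wt (S.erase j) Y) := Ex_nonneg fun X => h.wt0 _ _ X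
    have h4 := h.small j (hS hj)
    nlinarith

lemma wt_empty {S : Finset J} (hS : S ⊆ S₀) (X : V → P) : D.wt S ∅ X = 1 := by
  have h1 : D.PB ∅ X = 1 := by
    unfold PB
    refine prod_eq_one fun i hi => ?_
    rw [if_neg]
    intro h2
    have := h.Bne i hi
    rw [subset_empty.1 h2] at this
    exact not_nonempty_empty this
  have h2 : D.PF S ∅ X = 1 := by
    unfold PF
    refine prod_eq_one fun j hj => ?_
    refine Fc_eq_one ?_
    have h3 : D.Φ ∅ j X ≤ ∑ t ∈ D.Tm j, Ex (D.m j t) := by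
      refine sum_le_sum fun t ht => ?_
      split_ifs with h4
      · have h5 : D.m j t = fun _ => D.m j t X := by
          funext X'
          refine h.mdep j (hS hj) t ht X' X fun v hv => ?_
          have := h4 hv
          exact absurd this (notMem_empty v)
        have h6 : Ex (D.m j t) = D.m j t X := by
          rw [h5]; exact Ex_const _
        rw [h6]
      · exact Ex_nonneg (h.m0 j (hS hj) t ht)
    linarith [h.small j (hS hj)]
  unfold wt
  rw [h1, h2, one_mul]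

lemma Ex_wt_pos (heps : ε < 1) {S : Finset J} (hS : S ⊆ S₀) (Y : Finset V) (hY : Y ⊆ W) :
    0 < Ex (D.wt S Y) := by
  induction Y using Finset.strongInduction with
  | H Y ih =>
    rcases Y.eq_empty_or_nonempty with he | ⟨z, hz⟩
    · subst he
      have : D.wt S ∅ = fun _ => 1 := funext fun X => h.wt_empty hS X
      rw [this, Ex_const]
      exact one_pos
    · have h1 := ih (Y.erase z) (erase_ssubset hz) ((erase_subset _ _).trans hY)
      have h2 := (h.induct Y hY).1 S hS z hz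
      have : 0 < (1 - ε) * Ex (D.wt S (Y.erase z)) := mul_pos (by linarith) h1
      linarith

/-- conclusion: correlation bound on `W` -/
lemma main_corr {S : Finset J} (hS : S ⊆ S₀) (Q : Finset V) (hQ : Q.card ≤ K)
    (T : (V → P) → ℝ) (hT0 : ∀ X, 0 ≤ T X) (hT : DepOn Q T) :
    Ex (fun X => T X * D.wt S W X) ≤ 2 * Ex T * Ex (D.wt S W) :=
  h.corr hS (fun Y' hY' z hz => (h.induct Y' hY').1 S hS z hz) Q hQ T hT0 hT

end OK

end Soft

end Pool.Agent.MPa1d272
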