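import Pool.Agent.Lib.MP_a1d272_co.Loc

/-!
The batch step.
-/

namespace Pool.Agent.MPa1d272

open Finset

set_option linter.unusedSectionVars false

namespace Ctx

variable {V P : Type*} [Fintype V] [DecidableEq V] [Fintype P] [DecidableEq P] [Nonempty P]
variable {G : Ctx V P} {U W : Finset V} {φ : V → P}

lemma mass_cond_dep (e : Finset V) (w : V) :
    DepOn (insert w e \ U) (fun X : V → P => mass G.f (U ∪ W) e w (U.piecewise φ X)) := by
  intro X X' hX
  refine mass_congr _ (fun _ _ => Iff.rfl) fun x hx hxD => ?_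
  by_cases hxU : x ∈ U
  · rw [piecewise_eq_of_mem _ _ _ hxU, piecewise_eq_of_mem _ _ _ hxU]
  · rw [piecewise_eq_of_notMem _ _ _ hxU, piecewise_eq_of_notMem _ _ _ hxU]
    exact hX x (mem_sdiff.2 ⟨hx, hxU⟩)

/-- the weight of the batch -/
noncomputable def ww (G : Ctx V P) (U W : Finset V) (φ : V → P) (X : V → P) : ℝ :=
  (G.dat U W φ).wt (U ∪ W)ᶜ W X

lemma corr_edge (hb : G.BatchHyp U W φ) {e : Finset V} (he : e ∈ G.E) (w : V) :
    Ex (fun X => mass G.f (U ∪ W) e w (U.piecewise φ X) * G.ww U W φ X)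
      ≤ 2 * mass G.f U e w φ * Ex (G.ww U W φ) := by
  have h1 := (ok hb).main_corr (subset_refl _) (insert w e \ U) ?_
    (fun X : V → P => mass G.f (U ∪ W) e w (U.piecewise φ X))
    (fun X => mass_nonneg _ _ _ _ _) (mass_cond_dep (G := G) (W := W) e w)
  · rw [Ex_mass _ subset_union_left] at h1
    exact h1
  · refine (card_le_card sdiff_subset).trans ((card_insert_le _ _).trans ?_)
    rw [G.hE _ he]

lemma corr_edge_one (hb : G.BatchHyp U W φ) {e : Finset V} (hd : Disjoint e W) {w : V}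
    (hw : w ∈ U) :
    Ex (fun X => mass G.f (U ∪ W) e w (U.piecewise φ X) * G.ww U W φ X)
      = mass G.f U e w φ * Ex (G.ww U W φ) := by
  rw [← Ex_mul_left]
  congr 1
  funext X
  congr 1
  refine mass_congr _ (fun v hv => ?_) (fun v hv hvD => ?_)
  · rw [mem_union]
    constructor
    · rintro (h | h)
      · exact h
      · rcases mem_insert.1 hv with rfl | hv
        · exact hw
        · exact absurd h (disjoint_left.1 hd hv)
    · exact Or.inl
  · have hvU : v ∈ U := by
      rcases mem_union.1 hvD with h | h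
      · exact h
      · rcases mem_insert.1 hv with rfl | hv
        · exact hw
        · exact absurd h (disjoint_left.1 hd hv)
    rw [piecewise_eq_of_mem _ _ _ hvU]

lemma Ex_ww_pos (hb : G.BatchHyp U W φ) : 0 < Ex (G.ww U W φ) := by
  refine (ok hb).Ex_wt_pos ?_ (subset_refl _) W (subset_refl _)
  have hk := G.k1
  rw [div_lt_one (by linarith)]
  linarith

lemma tot_edge (hb : G.BatchHyp U W φ) {e : Finset V} (he : e ∈ G.E) :
    G.lam (e ∩ (U ∪ W)).card * ∑ w ∈ (U ∪ W) \ e,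
      Ex (fun X => mass G.f (U ∪ W) e w (U.piecewise φ X) * G.ww U W φ X)
    ≤ ((if Disjoint e W then 1 else 2 / G.M) * (G.lam (e ∩ U).card * G.h U φ e)
        + 2 * (G.L * W.card * (G.k / G.N))) * Ex (G.ww U W φ) := by
  have hE := Ex_ww_pos hb
  have hkN : 0 ≤ (G.k : ℝ) / G.N := kN_nonneg
  have hL := G.L_pos
  have hM := G.M_pos
  have hh := G.h_nonneg U φ e
  by_cases hd : Disjoint e W
  · rw [if_pos hd, one_mul]
    have h1 : e ∩ (U ∪ W) = e ∩ U := by
      rw [inter_union_distrib_left, disjoint_iff_inter_eq_empty.1 hd, union_empty]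
    rw [h1]
    have h2 : (U ∪ W) \ e = (U \ e) ∪ (W \ e) := union_sdiff_distrib _ _ _
    have hdd : Disjoint (U \ e) (W \ e) := hb.disj.mono sdiff_subset sdiff_subset
    rw [h2, sum_union hdd]
    have h3 : ∑ w ∈ U \ e, Ex (fun X => mass G.f (U ∪ W) e w (U.piecewise φ X) * G.ww U W φ X)
        = G.h U φ e * Ex (G.ww U W φ) := by
      unfold h
      rw [sum_mul]
      exact sum_congr rfl fun w hw => corr_edge_one hb hd (mem_sdiff.1 hw).1
    have h4 : ∑ w ∈ W \ e, Ex (fun X => mass G.f (U ∪ W) e w (U.piecewise φ X) * G.ww U W φ X)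
        ≤ W.card * (2 * (G.k / G.N) * Ex (G.ww U W φ)) := by
      calc _ ≤ ∑ _w ∈ W \ e, 2 * (G.k / G.N) * Ex (G.ww U W φ) := by
            refine sum_le_sum fun w hw => (corr_edge hb he w).trans ?_
            rw [mem_sdiff] at hw
            have h5 := mass_le G.f G.hf (fun h => (disjoint_left.1 hb.disj h) hw.1) hw.2 φ
            have h6 : mass G.f U e w φ ≤ G.k / G.N := h5
            exact mul_le_mul_of_nonneg_right (by linarith) hE.le
        _ = (W \ e).card * (2 * (G.k / G.N) * Ex (G.ww U W φ)) := by rw [sum_const, nsmul_eq_mul]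
        _ ≤ _ := by
            refine mul_le_mul_of_nonneg_right ?_ (by positivity)
            exact_mod_cast card_le_card sdiff_subset
    rw [h3]
    have h5 := G.lam_le_L (e ∩ U).card
    have h6 := G.lam_pos (e ∩ U).card
    have h7 : 0 ≤ (W.card : ℝ) * (2 * (G.k / G.N) * Ex (G.ww U W φ)) := by positivity
    calc _ ≤ G.lam (e ∩ U).card * (G.h U φ e * Ex (G.ww U W φ)
          + W.card * (2 * (G.k / G.N) * Ex (G.ww U W φ))) :=
          mul_le_mul_of_nonneg_left (by linarith) h6.le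
      _ = G.lam (e ∩ U).card * G.h U φ e * Ex (G.ww U W φ)
          + G.lam (e ∩ U).card * (W.card * (2 * (G.k / G.N) * Ex (G.ww U W φ))) := by ring
      _ ≤ G.lam (e ∩ U).card * G.h U φ e * Ex (G.ww U W φ)
          + G.L * (W.card * (2 * (G.k / G.N) * Ex (G.ww U W φ))) :=
          add_le_add le_rfl (mul_le_mul_of_nonneg_right h5 h7)
      _ = _ := by ring
  · rw [if_neg hd]
    have h1 : (e ∩ U).card + 1 ≤ (e ∩ (U ∪ W)).card := by
      rw [inter_union_distrib_left, card_union_of_disjoint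
        (hb.disj.mono inter_subset_right inter_subset_right)]
      have : 1 ≤ (e ∩ W).card := by
        refine card_pos.2 ?_
        rw [nonempty_iff_ne_empty]
        exact fun h => hd (disjoint_iff_inter_eq_empty.2 h)
      omega
    have h2 := G.lam_succ_le h1
    have h3 := G.lam_le_L (e ∩ (U ∪ W)).card
    have h4 := G.lam_pos (e ∩ (U ∪ W)).card
    have h5 : ∑ w ∈ (U ∪ W) \ e,
        Ex (fun X => mass G.f (U ∪ W) e w (U.piecewise φ X) * G.ww U W φ X)
        ≤ 2 * (G.h U φ e + W.card * (G.k / G.N)) * Ex (G.ww U W φ) := by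
      calc _ ≤ ∑ w ∈ (U ∪ W) \ e, 2 * mass G.f U e w φ * Ex (G.ww U W φ) :=
            sum_le_sum fun w _ => corr_edge hb he w
        _ = 2 * (∑ w ∈ (U ∪ W) \ e, mass G.f U e w φ) * Ex (G.ww U W φ) := by
            rw [mul_sum, sum_mul]
        _ ≤ _ := by
            have := G.sum_mass_le U W φ hb.disj e
            exact mul_le_mul_of_nonneg_right (by linarith) hE.le
    have h6 : 0 ≤ G.h U φ e * Ex (G.ww U W φ) := by positivity
    have h7 : 0 ≤ W.card * (G.k / G.N) * Ex (G.ww U W φ) := by positivity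
    calc _ ≤ G.lam (e ∩ (U ∪ W)).card * (2 * (G.h U φ e + W.card * (G.k / G.N))
          * Ex (G.ww U W φ)) := mul_le_mul_of_nonneg_left h5 h4.le
      _ = 2 * (G.lam (e ∩ (U ∪ W)).card * (G.h U φ e * Ex (G.ww U W φ)))
          + 2 * (G.lam (e ∩ (U ∪ W)).card * (W.card * (G.k / G.N) * Ex (G.ww U W φ))) := by ring
      _ ≤ 2 * (G.lam (e ∩ U).card / G.M * (G.h U φ e * Ex (G.ww U W φ)))
          + 2 * (G.L * (W.card * (G.k / G.N) * Ex (G.ww U W φ))) := by
          have h8 := mul_le_mul_of_nonneg_right h2 h6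
          have h9 := mul_le_mul_of_nonneg_right h3 h7
          linarith
      _ = _ := by ring

/-- the total load of edges meeting `W` -/
noncomputable def AW (G : Ctx V P) (U W : Finset V) (φ : V → P) : ℝ :=
  ∑ e ∈ G.E with ¬ Disjoint e W, G.lam (e ∩ U).card * G.h U φ e

lemma tot_corr (hb : G.BatchHyp U W φ) :
    Ex (fun X => G.Tot (U ∪ W) (U.piecewise φ X) * G.ww U W φ X)
      ≤ (G.Tot U φ - (1 - 2 / G.M) * G.AW U W φ + 2 * G.k / G.M1 * W.card)
        * Ex (G.ww U W φ) := by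
  have hE := Ex_ww_pos hb
  have hkN : 0 ≤ (G.k : ℝ) / G.N := kN_nonneg
  have hL := G.L_pos
  have hM := G.M_pos
  have h1 : (fun X => G.Tot (U ∪ W) (U.piecewise φ X) * G.ww U W φ X)
      = fun X => ∑ e ∈ G.E with ¬ e ⊆ U ∪ W, G.lam (e ∩ (U ∪ W)).card *
        ∑ w ∈ (U ∪ W) \ e, (mass G.f (U ∪ W) e w (U.piecewise φ X) * G.ww U W φ X) := by
    funext X
    unfold Tot h
    rw [sum_mul]
    refine sum_congr rfl fun e _ => ?_
    rw [mul_assoc, sum_mul]
  rw [h1, Ex_sum]
  have h2 : ∀ e ∈ G.E.filter (fun e => ¬ e ⊆ U ∪ W),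
      Ex (fun X => G.lam (e ∩ (U ∪ W)).card *
        ∑ w ∈ (U ∪ W) \ e, (mass G.f (U ∪ W) e w (U.piecewise φ X) * G.ww U W φ X))
      ≤ ((if ¬ e ⊆ U then G.lam (e ∩ U).card * G.h U φ e else 0)
          - (if ¬ Disjoint e W then (1 - 2 / G.M) * (G.lam (e ∩ U).card * G.h U φ e) else 0)
          + 2 * (G.L * W.card * (G.k / G.N))) * Ex (G.ww U W φ) := by
    intro e he
    rw [mem_filter] at he
    rw [Ex_mul_left, Ex_sum]
    refine (tot_edge hb he.1).trans (le_of_eq ?_)
    have h3 : ¬ e ⊆ U := fun h => he.2 (h.trans subset_union_left)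
    rw [if_pos h3]
    by_cases hd : Disjoint e W
    · rw [if_pos hd, if_neg (not_not.2 hd)]; ring
    · rw [if_neg hd, if_pos hd]; ring
  refine (sum_le_sum h2).trans ?_
  rw [← sum_mul]
  refine mul_le_mul_of_nonneg_right ?_ hE.le
  have hlh := G.lh_nonneg U φ
  have hM2 : 0 ≤ 1 - 2 / G.M := by
    have := G.M_ge
    rw [sub_nonneg, div_le_one hM]; linarith
  -- extend the sum to all edges
  have h3 : ∑ e ∈ G.E with ¬ e ⊆ U ∪ W,
      ((if ¬ e ⊆ U then G.lam (e ∩ U).card * G.h U φ e else 0)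
          - (if ¬ Disjoint e W then (1 - 2 / G.M) * (G.lam (e ∩ U).card * G.h U φ e) else 0)
          + 2 * (G.L * W.card * (G.k / G.N)))
      ≤ ∑ e ∈ G.E,
      ((if ¬ e ⊆ U then G.lam (e ∩ U).card * G.h U φ e else 0)
          - (if ¬ Disjoint e W then (1 - 2 / G.M) * (G.lam (e ∩ U).card * G.h U φ e) else 0)
          + 2 * (G.L * W.card * (G.k / G.N))) := by
    refine sum_le_sum_of_subset_of_nonneg (filter_subset _ _) fun e he _ => ?_
    have h4 : 0 ≤ 2 * (G.L * W.card * (G.k / G.N)) := by positivity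
    have h5 := hlh e
    by_cases hd : Disjoint e W
    · rw [if_neg (not_not.2 hd)]
      split_ifs <;> linarith
    · rw [if_pos hd]
      have h6 : ¬ e ⊆ U := by
        intro h7
        exact hd (hb.disj.mono_left h7)
      rw [if_pos h6]
      have h7 : (1 - 2 / G.M) * (G.lam (e ∩ U).card * G.h U φ e)
          ≤ G.lam (e ∩ U).card * G.h U φ e := by
        have : 0 ≤ 2 / G.M := by positivity
        nlinarith
      linarith
  refine h3.trans (le_of_eq ?_)
  rw [sum_add_distrib, sum_sub_distrib, ← sum_filter, ← sum_filter, ← mul_sum, sum_const,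
    nsmul_eq_mul]
  change G.Tot U φ - (1 - 2 / G.M) * G.AW U W φ + G.mm * _ = _
  have h4 : G.mm * (2 * (G.L * W.card * (G.k / G.N))) = 2 * G.k / G.M1 * W.card := by
    have h1 := G.N_pos
    have h2 := G.mm_pos
    have h3 := G.M1_pos
    unfold L
    field_simp
  rw [h4]

/-- the selection of the new colours -/
lemma select (hb : G.BatchHyp U W φ) :
    ∃ X : V → P, 0 < G.ww U W φ X ∧
      G.Tot (U ∪ W) (U.piecewise φ X)
        ≤ G.Tot U φ - (1 - 2 / G.M) * G.AW U W φ + 2 * G.k / G.M1 * W.card :=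
  exists_le_of_Ex (fun X => (ok hb).wt0 _ _ X) (Ex_ww_pos hb) _ (tot_corr hb)

lemma B_ne_one (hb : G.BatchHyp U W φ) {X : V → P} (hX : 0 < G.ww U W φ X) {i : BadIdx V}
    (hi : i ∈ (G.dat U W φ).I) (hv : (G.dat U W φ).vb i ⊆ W) : (G.dat U W φ).B i X ≠ 1 := by
  intro h1
  have h2 : (G.dat U W φ).PB W X = 0 := by
    unfold Soft.PB
    refine prod_eq_zero hi ?_
    rw [if_pos hv, h1, sub_self]
  unfold ww Soft.wt at hX
  rw [h2, zero_mul] at hX
  exact lt_irrefl _ hX

lemma Φ_lt_one (hb : G.BatchHyp U W φ) {X : V → P} (hX : 0 < G.ww U W φ X) {v : V}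
    (hv : v ∉ U ∪ W) : (G.dat U W φ).Φ W v X < 1 := by
  refine lt_one_of_Fc_pos ?_
  rcases (Fc_nonneg ((G.dat U W φ).Φ W v X)).lt_or_eq with h | h
  · exact h
  · exfalso
    have h2 : (G.dat U W φ).PF (U ∪ W)ᶜ W X = 0 := by
      unfold Soft.PF
      exact prod_eq_zero (by simpa using hv) h.symm
    unfold ww Soft.wt at hX
    rw [h2, mul_zero] at hX
    exact lt_irrefl _ hX

lemma psi_new (hb : G.BatchHyp U W φ) {X : V → P} (hX : 0 < G.ww U W φ X) {v : V}
    (hv : v ∉ U ∪ W) : G.Ψ (U ∪ W) (U.piecewise φ X) v ≤ 1 := by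
  refine le_trans ?_ (Φ_lt_one hb hX hv).le
  unfold Soft.Φ
  change _ ≤ ∑ t ∈ (G.E.filter (v ∈ ·)).sigma (fun e => (e ∩ W).powerset ×ˢ ((U ∪ W) \ e)), _
  rw [sum_sigma]
  unfold Ψ
  refine sum_le_sum fun e he => ?_
  rw [sum_product]
  have h0 : ∀ R ∈ (e ∩ W).powerset, ∀ w ∈ (U ∪ W) \ e,
      (if (G.dat U W φ).tv v ⟨e, (R, w)⟩ ⊆ W then (G.dat U W φ).m v ⟨e, (R, w)⟩ X else 0)
      = G.lam ((e ∩ U).card + R.card) * mass G.f (insert w (U ∪ R)) e w (U.piecewise φ X) := by
    intro R hR w hw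
    rw [if_pos]
    · rfl
    · intro x hx
      change x ∈ insert w R \ U at hx
      rw [mem_sdiff, mem_insert] at hx
      rcases hx.1 with rfl | hxR
      · rcases mem_union.1 (mem_sdiff.1 hw).1 with h | h
        · exact absurd h hx.2
        · exact h
      · exact (mem_inter.1 (mem_powerset.1 hR hxR)).2
  rw [sum_congr rfl fun R hR => sum_congr rfl (h0 R hR)]
  have h1 : ∀ R ∈ (e ∩ W).powerset, 0 ≤ ∑ w ∈ (U ∪ W) \ e,
      G.lam ((e ∩ U).card + R.card) * mass G.f (insert w (U ∪ R)) e w (U.piecewise φ X) :=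
    fun R _ => sum_nonneg fun w _ => mul_nonneg (G.lam_pos _).le (mass_nonneg _ _ _ _ _)
  refine le_trans (le_of_eq ?_) (single_le_sum h1 (mem_powerset_self (e ∩ W)))
  unfold h
  rw [mul_sum]
  refine sum_congr rfl fun w hw => ?_
  have h2 : (e ∩ (U ∪ W)).card = (e ∩ U).card + (e ∩ W).card := by
    rw [inter_union_distrib_left, card_union_of_disjoint
      (hb.disj.mono inter_subset_right inter_subset_right)]
  rw [h2]
  congr 1
  refine mass_congr _ (fun x hx => ?_) (fun _ _ _ => rfl)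
  rw [mem_sdiff, mem_union] at hw
  simp only [mem_insert, mem_union, mem_inter] at hx ⊢
  constructor
  · rintro (h | h)
    · exact Or.inr (Or.inl h)
    · rcases hx with hx | hx
      · exact Or.inl hx
      · exact Or.inr (Or.inr ⟨hx, h⟩)
  · rintro (h | h | h)
    · rw [h]; exact hw.1
    · exact Or.inl h
    · exact Or.inr h.2

lemma mem_I1 {y : V} (hy : y ∈ W) : (Sum.inl y : BadIdx V) ∈ (G.dat U W φ).I :=
  inl_mem_disjSum.2 hy

lemma mem_I2 {y y' : V} (hy : y ∈ W) (hy' : y' ∈ W) (h : y ≠ y') :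
    (Sum.inr (Sum.inl (y, y')) : BadIdx V) ∈ (G.dat U W φ).I :=
  inr_mem_disjSum.2 (inl_mem_disjSum.2 (mem_filter.2 ⟨mem_product.2 ⟨hy, hy'⟩, h⟩))

lemma mem_I3 {e : Finset V} {w : V} (he : e ∈ G.E) (h1 : e ⊆ U ∪ W) (h2 : ¬ e ⊆ U)
    (hw : w ∈ U ∪ W) (hwe : w ∉ e) :
    (Sum.inr (Sum.inr ⟨e, w⟩) : BadIdx V) ∈ (G.dat U W φ).I :=
  inr_mem_disjSum.2 (inr_mem_disjSum.2 (mem_sigma.2
    ⟨mem_filter.2 ⟨he, h1, h2⟩, mem_sdiff.2 ⟨hw, hwe⟩⟩))

lemma not_forb (hb : G.BatchHyp U W φ) {X : V → P} (hX : 0 < G.ww U W φ X) {y : V} (hy : y ∈ W) :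
    X y ∉ G.forb U φ := by
  intro h
  refine B_ne_one hb hX (mem_I1 (G := G) (U := U) (φ := φ) hy) ?_ ?_
  · exact singleton_subset_iff.2 hy
  · exact if_pos h

lemma inj_new (hb : G.BatchHyp U W φ) {X : V → P} (hX : 0 < G.ww U W φ X)
    (hinj : ∀ x ∈ U, ∀ y ∈ U, φ x = φ y → x = y) :
    ∀ x ∈ U ∪ W, ∀ y ∈ U ∪ W, U.piecewise φ X x = U.piecewise φ X y → x = y := by
  have key : ∀ x ∈ U, ∀ y ∈ W, U.piecewise φ X x = U.piecewise φ X y → x = y := by
    intro x hx y hy h
    exfalso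
    have hyU : y ∉ U := fun h' => (disjoint_left.1 hb.disj h') hy
    rw [piecewise_eq_of_mem _ _ _ hx, piecewise_eq_of_notMem _ _ _ hyU] at h
    refine not_forb hb hX hy ?_
    rw [← h]
    exact mem_union_left _ (mem_image_of_mem _ hx)
  intro x hx y hy h
  rcases mem_union.1 hx with hxU | hxW
  · rcases mem_union.1 hy with hyU | hyW
    · rw [piecewise_eq_of_mem _ _ _ hxU, piecewise_eq_of_mem _ _ _ hyU] at h
      exact hinj x hxU y hyU h
    · exact key x hxU y hyW h
  · rcases mem_union.1 hy with hyU | hyW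
    · exact (key y hyU x hxW h.symm).symm
    · have hxU : x ∉ U := fun h' => (disjoint_left.1 hb.disj h') hxW
      have hyU : y ∉ U := fun h' => (disjoint_left.1 hb.disj h') hyW
      rw [piecewise_eq_of_notMem _ _ _ hxU, piecewise_eq_of_notMem _ _ _ hyU] at h
      by_contra hne
      refine B_ne_one hb hX (mem_I2 (G := G) (U := U) (φ := φ) hxW hyW hne) ?_ ?_
      · intro z hz
        change z ∈ ({x, y} : Finset V) at hz
        rcases mem_insert.1 hz with rfl | hz
        · exact hxW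
        · rw [mem_singleton.1 hz]; exact hyW
      · exact if_pos h

lemma free_new (hb : G.BatchHyp U W φ) {X : V → P} (hX : 0 < G.ww U W φ X)
    (hfree : ∀ e ∈ G.E, e ⊆ U → ∀ w ∈ U, w ∉ e → φ w ∉ G.f (e.image φ)) :
    ∀ e ∈ G.E, e ⊆ U ∪ W → ∀ w ∈ U ∪ W, w ∉ e →
      U.piecewise φ X w ∉ G.f (e.image (U.piecewise φ X)) := by
  intro e he heUW w hw hwe
  by_cases heU : e ⊆ U
  · have h1 : e.image (U.piecewise φ X) = e.image φ :=
      image_congr fun v hv => piecewise_eq_of_mem _ _ _ (heU hv)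
    rw [h1]
    by_cases hwU : w ∈ U
    · rw [piecewise_eq_of_mem _ _ _ hwU]
      exact hfree e he heU w hwU hwe
    · rw [piecewise_eq_of_notMem _ _ _ hwU]
      have hwW : w ∈ W := (mem_union.1 hw).resolve_left hwU
      intro h2
      refine not_forb hb hX hwW (mem_union_right _ ?_)
      exact mem_biUnion.2 ⟨e, mem_filter.2 ⟨he, heU⟩, h2⟩
  · intro h2
    refine B_ne_one hb hX (mem_I3 (G := G) (U := U) (φ := φ) he heUW heU hw hwe) ?_ ?_
    · intro z hz
      change z ∈ insert w e \ U at hz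
      rw [mem_sdiff, mem_insert] at hz
      have h3 : z ∈ U ∪ W := by
        rcases hz.1 with rfl | h
        · exact hw
        · exact heUW h
      exact (mem_union.1 h3).resolve_left hz.2
    · exact if_pos h2

/-- the batch step -/
theorem step {r : ℕ} (hI : G.Inv U φ r) (hU : U ≠ univ)
    (large : 32 * (G.k + 1) * (7 * G.k ^ 2 + G.M ^ (G.k - 1) * G.M1) * G.mm ≤ G.N) :
    ∃ (U' : Finset V) (φ' : V → P), U ⊂ U' ∧ G.Inv U' φ' (r + 1) := by
  have hk := G.k1
  have hM1 := G.M1_pos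
  have hM := G.M_pos
  -- vertex of maximum degree
  have hne : (Uᶜ).Nonempty := by
    rw [nonempty_iff_ne_empty]
    intro h
    exact hU (by rw [← compl_compl U, h, compl_empty])
  obtain ⟨u, huU, humax⟩ := exists_max_image Uᶜ G.deg hne
  rw [mem_compl] at huU
  have humax' : ∀ v ∉ U, G.deg v ≤ G.deg u := fun v hv => humax v (mem_compl.2 hv)
  set Warm : Finset V := Uᶜ.filter fun v => 1 / 16 < G.Ψ U φ v with hWarm
  set W : Finset V := insert u Warm with hW
  have hdisj : Disjoint U W := by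
    rw [disjoint_left]
    intro x hx hxW
    rcases mem_insert.1 hxW with rfl | h
    · exact huU hx
    · exact (mem_compl.1 (mem_filter.1 h).1) hx
  obtain ⟨Reg, hRU, hRc, hReg⟩ := hI.reg
  -- number of warm vertices
  have hwarm1 : (Warm.card : ℝ) * (1 / 16) ≤ ∑ z ∈ Warm, G.Ψ U φ z := by
    rw [← nsmul_eq_mul, ← sum_const]
    exact sum_le_sum fun z hz => (mem_filter.1 hz).2.le
  have hwarm2 : ∑ z ∈ Warm, G.Ψ U φ z ≤ G.k * G.Tot U φ := by
    refine (G.sumPsi U φ Warm).trans ?_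
    refine mul_le_mul_of_nonneg_left ?_ (by linarith)
    unfold Tot
    refine sum_le_sum_of_subset_of_nonneg ?_ fun e _ _ => G.lh_nonneg _ _ _
    intro e he
    rw [mem_filter] at he ⊢
    refine ⟨he.1, fun heU => he.2 ?_⟩
    exact (hdisj.mono heU (subset_insert _ _))
  have hwarm3 : (Warm.card : ℝ) ≤ r := by
    have h1 := hI.tot
    have h2 : G.k * G.Tot U φ ≤ G.k * (2 * G.k / G.M1 * r) :=
      mul_le_mul_of_nonneg_left h1 (by linarith)
    have h3 : 16 * (G.k * (2 * G.k / G.M1 * (r : ℝ))) ≤ r := by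
      have h4 : 32 * (G.k : ℝ) ^ 2 / G.M1 ≤ 1 := by
        rw [div_le_one hM1]
        unfold M1
        have h9 := G.two_pow_ge
        have h10 : (1 : ℝ) ≤ (G.k + 1) * 2 ^ G.k := by nlinarith
        have h11 : (0 : ℝ) ≤ (G.k : ℝ) ^ 2 := by positivity
        nlinarith
      calc _ = 32 * (G.k : ℝ) ^ 2 / G.M1 * r := by ring
        _ ≤ 1 * r := mul_le_mul_of_nonneg_right h4 (Nat.cast_nonneg _)
        _ = r := one_mul _
    linarith
  have hWc : W.card ≤ r + 1 := by
    have h1 : Warm.card ≤ r := by exact_mod_cast hwarm3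
    exact (card_insert_le _ _).trans (by omega)
  have hb : G.BatchHyp U W φ := by
    refine ⟨hdisj, ?_, hI.psi, ?_, large⟩
    · intro v hv
      have h1 := G.reg_bound (Reg := Reg) (v := v) (fun h => hv (hRU h)) fun x hx => hReg x hx v hv
      rw [hRc] at h1
      have h2 : G.deg v * W.card ≤ G.k * G.E.card := by
        calc G.deg v * W.card ≤ G.deg v * (r + 1) := Nat.mul_le_mul_left _ hWc
          _ = (r + 1) * G.deg v := Nat.mul_comm _ _
          _ ≤ _ := h1
      unfold mm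
      exact_mod_cast h2
    · intro v hv
      by_contra h
      push Not at h
      refine hv (mem_union_right _ (mem_insert_of_mem ?_))
      exact mem_filter.2 ⟨mem_compl.2 fun h' => hv (mem_union_left _ h'), h⟩
  obtain ⟨X, hX, hT⟩ := select hb
  refine ⟨U ∪ W, U.piecewise φ X, ?_, ?_⟩
  · refine ⟨subset_union_left, fun h => huU (h (mem_union_right _ (mem_insert_self _ _)))⟩
  refine ⟨inj_new hb hX hI.inj, free_new hb hX hI.free, fun v hv => psi_new hb hX hv, ?_, ?_⟩
  · refine ⟨insert u Reg, ?_, ?_, ?_⟩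
    · intro x hx
      rcases mem_insert.1 hx with rfl | h
      · exact mem_union_right _ (mem_insert_self _ _)
      · exact mem_union_left _ (hRU h)
    · rw [card_insert_of_notMem (fun h => huU (hRU h)), hRc]
    · intro x hx v hv
      have hvU : v ∉ U := fun h => hv (mem_union_left _ h)
      rcases mem_insert.1 hx with rfl | h
      · exact humax' v hvU
      · exact hReg x h v hvU
  · -- total load
    refine hT.trans ?_
    have h1 : (Warm.card : ℝ) * (1 / 16) ≤ G.k * G.AW U W φ := by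
      refine hwarm1.trans ?_
      refine (sum_le_sum_of_subset_of_nonneg (subset_insert u Warm)
        fun z _ _ => G.Ψ_nonneg U φ z).trans ?_
      exact G.sumPsi U φ W
    have h2 : (W.card : ℝ) ≤ Warm.card + 1 := by exact_mod_cast card_insert_le _ _
    have h3 : 1 / 2 ≤ 1 - 2 / G.M := by
      have h4 : 2 / G.M ≤ 1 / 2 := by
        rw [div_le_div_iff₀ hM (by norm_num)]
        linarith [G.M_ge]
      linarith
    have h5 : 2 * (G.k : ℝ) / G.M1 ≤ 1 / (32 * G.k) := by
      rw [div_le_div_iff₀ hM1 (by positivity)]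
      unfold M1
      have h9 := G.two_pow_ge
      have h10 : (1 : ℝ) ≤ (G.k + 1) * 2 ^ G.k := by nlinarith
      have h11 : (0 : ℝ) ≤ (G.k : ℝ) ^ 2 := by positivity
      nlinarith
    have h6 : 0 ≤ G.AW U W φ := sum_nonneg fun e _ => G.lh_nonneg _ _ _
    have h7 : 2 * (G.k : ℝ) / G.M1 * Warm.card ≤ 1 / 2 * G.AW U W φ := by
      calc 2 * (G.k : ℝ) / G.M1 * Warm.card ≤ 1 / (32 * G.k) * Warm.card :=
            mul_le_mul_of_nonneg_right h5 (Nat.cast_nonneg _)
        _ = 1 / (2 * G.k) * (Warm.card * (1 / 16)) := by field_simp; ring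
        _ ≤ 1 / (2 * G.k) * (G.k * G.AW U W φ) := mul_le_mul_of_nonneg_left h1 (by positivity)
        _ = _ := by field_simp
    have h8 : 1 / 2 * G.AW U W φ ≤ (1 - 2 / G.M) * G.AW U W φ := mul_le_mul_of_nonneg_right h3 h6
    have h9 : 2 * (G.k : ℝ) / G.M1 * W.card ≤ 2 * G.k / G.M1 * (Warm.card + 1) :=
      mul_le_mul_of_nonneg_left h2 (by positivity)
    have h10 := hI.tot
    push_cast
    linarith

/-- the whole vertex set can be embedded -/
theorem embed
    (large : 32 * (G.k + 1) * (7 * G.k ^ 2 + G.M ^ (G.k - 1) * G.M1) * G.mm ≤ G.N) :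
    ∃ φ : V → P, (∀ x y, φ x = φ y → x = y) ∧
      ∀ e ∈ G.E, ∀ w, w ∉ e → φ w ∉ G.f (e.image φ) := by
  have key : ∀ n : ℕ, ∀ (U : Finset V) (φ : V → P) (r : ℕ), G.Inv U φ r → Uᶜ.card = n →
      ∃ (φ : V → P) (r : ℕ), G.Inv univ φ r := by
    intro n
    induction n using Nat.strong_induction_on with
    | _ n ih =>
      intro U φ r hI hn
      by_cases hU : U = univ
      · subst hU; exact ⟨φ, r, hI⟩
      · obtain ⟨U', φ', hss, hI'⟩ := step hI hU large
        refine ih U'ᶜ.card ?_ U' φ' (r + 1) hI' rfl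
        rw [← hn]
        exact card_lt_card (compl_ssubset_compl.2 hss)
  obtain ⟨φ, r, hI⟩ := key _ ∅ (fun _ => Classical.arbitrary P) 0 (G.inv_empty _) rfl
  refine ⟨φ, fun x y h => hI.inj x (mem_univ _) y (mem_univ _) h, fun e he w hw => ?_⟩
  exact hI.free e he (subset_univ _) w (mem_univ _) hw

end Ctx

end Pool.Agent.MPa1d272
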